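import Mathlib

/-!
# Weil numbers of prime dimension
-/

set_option autoImplicit false

namespace Pool.Agent.Y156.P

open NumberField Module
open scoped IntermediateField

/-- The number `π` is a Weil number for `p ^ a` in the CM field `K`, each power of which generates
`K`. -/
structure IsSimpleWeil (p a : ℕ) {K : Type} [Field K] [NumberField K] [IsCMField K] (π : K) :
    Prop where
  integral : IsIntegral ℤ π
  weil : π * IsCMField.complexConj K π = (p : K) ^ a
  gen : ∀ n : ℕ, 0 < n → ℚ⟮π ^ n⟯ = ⊤

/-- The slopes of `π` (the valuations of its conjugates over the field of the `p`-adic numbers,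
normalised such that `p ^ a` has the valuation one) are rational numbers with an odd common
denominator `d`. -/
def OddSlopes (p a : ℕ) [Fact p.Prime] {K : Type} [Field K] (π : K) : Prop :=
  ∃ d : ℕ, Odd d ∧ ∀ e : K →+* PadicAlgCl p, ∃ m : ℤ, ‖e π‖ ^ d = ‖(p : PadicAlgCl p) ^ a‖ ^ m

/-- The number `π` is a Weil number for `p ^ a` in the CM field `K`, each power of which generates
`K`; the degree of `K` is `2 g` where `g = 1`, `g = 2`, or `g` is a prime number and moreover the
slopes of `π` have odd denominators or `K` has no quadratic subfield. -/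
structure IsPrimeWeil (p a : ℕ) [Fact p.Prime] {K : Type} [Field K] [NumberField K] [IsCMField K]
    (π : K) : Prop where
  simple : IsSimpleWeil p a π
  prime : finrank ℚ K = 2 ∨ finrank ℚ K = 4 ∨ ∃ g : ℕ, g.Prime ∧ finrank ℚ K = 2 * g ∧
    (OddSlopes p a π ∨ ∀ F : IntermediateField ℚ K, finrank ℚ F ≠ 2)

/-- The degree of the field `K` is `2 g` with an odd prime number `g`, and `K` has no quadratic
subfield. -/
def IsOddPrimeField (K : Type) [Field K] [NumberField K] : Prop :=
  (∃ g : ℕ, g.Prime ∧ g ≠ 2 ∧ finrank ℚ K = 2 * g) ∧ ∀ F : IntermediateField ℚ K, finrank ℚ F ≠ 2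

end Pool.Agent.Y156.P
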