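import Mathlib

/-!
# CM fields with irreducible odd part
-/

set_option autoImplicit false

namespace Pool.Agent.Y156.P

open NumberField Module
open scoped IntermediateField

/-- The rational functions on the set of the complex embeddings of `K` which change the sign under
complex conjugation form an irreducible representation of the group of automorphisms of the field of
complex numbers. -/
def OddIrreducible (K : Type) [Field K] : Prop :=
  ∀ S : Submodule ℚ ((K →+* ℂ) → ℚ),
    (∀ σ : ℂ ≃+* ℂ, ∀ s ∈ S, (fun φ => s ((σ : ℂ →+* ℂ).comp φ)) ∈ S) →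
    (∀ s ∈ S, ∀ φ : K →+* ℂ, s (ComplexEmbedding.conjugate φ) = - s φ) →
    S = ⊥ ∨ ∀ u : (K →+* ℂ) → ℚ, (∀ φ, u (ComplexEmbedding.conjugate φ) = - u φ) → u ∈ S

/-- The number `π` is a Weil number for `p ^ a` that generates the CM field `K`, whose odd part is
irreducible, and `π` is not supersingular: some of its slopes is different from `1 / 2`. -/
structure IsIrreducibleWeil (p a : ℕ) [Fact p.Prime] {K : Type} [Field K] [NumberField K]
    [IsCMField K] (π : K) : Prop where
  irreducible : OddIrreducible K
  weil : π * IsCMField.complexConj K π = (p : K) ^ a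
  gen : ℚ⟮π⟯ = ⊤
  slope : ∃ e : K →+* PadicAlgCl p, ‖e π‖ ^ 2 ≠ ‖(p : PadicAlgCl p) ^ a‖

end Pool.Agent.Y156.P
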