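import Mathlib
import Pool.Agent.H977R3.CM.Defs
import Pool.Agent.Y1.CT.IndepDefs
import Pool.Agent.Y156.P.Defs
import Pool.Agent.Y156.P.IrrDefs

/-!
# Criteria for the independence of fields and numbers, and for the irreducibility of the odd part
-/

set_option autoImplicit false

namespace Pool.Agent.Y156.P

open NumberField Module Pool.Agent.H977R3.CM Pool.Agent.Y1.CT

/-- CM fields of pairwise different degrees are pairwise independent if all of them, except perhaps
the one of smallest degree, have degree `2 g`, `g` an odd prime number, and no quadratic subfield. -/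
def PrimeFieldsIndependent : Prop :=
  ∀ (I : Type) (K : I → Type) [∀ i, Field (K i)] [∀ i, NumberField (K i)] [∀ i, IsCMField (K i)],
    (∀ i k, i ≠ k → finrank ℚ (K i) ≠ finrank ℚ (K k)) →
    (∀ i k, finrank ℚ (K i) < finrank ℚ (K k) → IsOddPrimeField (K k)) → PairwiseIndep K

/-- All nonzero algebraic numbers of degree less than the degrees of the CM fields `K i` are
independent of these fields, if the fields have degree `2 g i`, `g i` an odd prime number, and no
quadratic subfields. -/
def PrimeNumbersIndependent : Prop :=
  ∀ (I : Type) (K : I → Type) [∀ i, Field (K i)] [∀ i, NumberField (K i)] [∀ i, IsCMField (K i)]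
    (ρ : ℂ), ρ ≠ 0 → IsAlgebraic ℚ ρ →
    (∀ i, IsOddPrimeField (K i) ∧ (minpoly ℚ ρ).natDegree < finrank ℚ (K i)) → Independent K ρ

/-- CM fields of pairwise different degrees are pairwise independent if all of them, except perhaps
the one of smallest degree, have an irreducible odd part. -/
def FieldsIndependent : Prop :=
  ∀ (I : Type) (K : I → Type) [∀ i, Field (K i)] [∀ i, NumberField (K i)] [∀ i, IsCMField (K i)],
    (∀ i k, i ≠ k → finrank ℚ (K i) ≠ finrank ℚ (K k)) →
    (∀ i k, finrank ℚ (K i) < finrank ℚ (K k) → OddIrreducible (K k)) → PairwiseIndep K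

/-- All nonzero algebraic numbers of degree less than the degrees of the CM fields `K i` are
independent of these fields, if the fields have irreducible odd parts. -/
def NumbersIndependent : Prop :=
  ∀ (I : Type) (K : I → Type) [∀ i, Field (K i)] [∀ i, NumberField (K i)] [∀ i, IsCMField (K i)]
    (ρ : ℂ), ρ ≠ 0 → IsAlgebraic ℚ ρ →
    (∀ i, OddIrreducible (K i) ∧ (minpoly ℚ ρ).natDegree < finrank ℚ (K i)) → Independent K ρ

/-- Some automorphism of the complex numbers exchanges two complex conjugate embeddings of `K` and
fixes all other embeddings. For example, the Galois group of the normal closure of a CM field of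
degree `2 g` is the full group of order `2 ^ g g!`. -/
def HasFlip (K : Type) [Field K] : Prop :=
  ∃ (ψ : K →+* ℂ) (τ : ℂ ≃+* ℂ), (τ : ℂ →+* ℂ).comp ψ = ComplexEmbedding.conjugate ψ ∧
    ∀ φ : K →+* ℂ, φ ≠ ψ → φ ≠ ComplexEmbedding.conjugate ψ → (τ : ℂ →+* ℂ).comp φ = φ

/-- The odd part of a CM field `K` is irreducible if `K` has a flip, and if the degree of `K` is `2 g`,
`g` an odd prime number, and `K` has no quadratic subfield. -/
def IrreducibilityCriteria : Prop :=
  ∀ (K : Type) [Field K] [NumberField K] [IsCMField K], HasFlip K ∨ IsOddPrimeField K →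
    OddIrreducible K

end Pool.Agent.Y156.P
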