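import Mathlib

/-!
# Orthogonal cyclic sequences of prime length
-/

set_option autoImplicit false

namespace Pool.Agent.Y156.P

open Polynomial Finset

/-- A rational linear relation between the powers of a primitive root of unity of prime order has
constant coefficients. -/
theorem const_of_sum {p : ℕ} [hp : Fact p.Prime] {ζ : ℂ} (hζ : IsPrimitiveRoot ζ p)
    (b : ZMod p → ℚ) (h : ∑ i : ZMod p, (b i : ℂ) * ζ ^ i.val = 0) (i : ZMod p) : b i = b 0 := by
  classical
  have hp0 : p ≠ 0 := hp.out.ne_zero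
  let P : ℚ[X] := ∑ i : ZMod p, C (b i) * X ^ i.val
  have hcoeff : ∀ i : ZMod p, P.coeff i.val = b i := by
    intro i
    simp only [P, finsetSum_coeff, coeff_C_mul, coeff_X_pow]
    rw [Finset.sum_eq_single i]
    · simp
    · intro j _ hj
      rw [if_neg, mul_zero]
      intro h
      exact hj (ZMod.val_injective p h.symm)
    · intro h
      exact absurd (Finset.mem_univ i) h
  have hP0 : aeval ζ P = 0 := by
    simp only [P, map_sum, map_mul, aeval_C, map_pow, aeval_X]
    simpa using h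
  have hdeg : P.natDegree ≤ p - 1 := by
    refine natDegree_sum_le_of_forall_le _ _ fun i _ => ?_
    refine (natDegree_C_mul_X_pow_le _ _).trans ?_
    have := ZMod.val_lt i
    omega
  have hdvd : cyclotomic p ℚ ∣ P := by
    rw [cyclotomic_eq_minpoly_rat hζ hp.out.pos]
    exact minpoly.dvd ℚ ζ hP0
  obtain ⟨Q, hQ⟩ := hdvd
  have hdegc : (cyclotomic p ℚ).natDegree = p - 1 := by
    rw [natDegree_cyclotomic, Nat.totient_prime hp.out]
  have hQdeg : Q.natDegree = 0 := by
    by_cases hQ0 : Q = 0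
    · rw [hQ0, natDegree_zero]
    · have h1 := congrArg natDegree hQ
      rw [natDegree_mul (cyclotomic_ne_zero p ℚ) hQ0, hdegc] at h1
      omega
  rw [eq_C_of_natDegree_eq_zero hQdeg, cyclotomic_prime] at hQ
  have hc : ∀ i : ZMod p, b i = Q.coeff 0 := by
    intro i
    rw [← hcoeff i, hQ, coeff_mul_C, finsetSum_coeff]
    have h2 : ∑ k ∈ range p, (X ^ k : ℚ[X]).coeff i.val = 1 := by
      simp only [coeff_X_pow]
      rw [Finset.sum_ite_eq, if_pos (Finset.mem_range.2 (ZMod.val_lt i))]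
    rw [h2, one_mul]
  rw [hc i, hc 0]

/-- Two rational sequences of prime period whose cyclic cross-correlations all vanish: one of them is
constant. -/
theorem const_or_const {p : ℕ} [hp : Fact p.Prime] (a b : ZMod p → ℚ)
    (h : ∀ k, ∑ i, a i * b (i + k) = 0) : (∀ i, a i = a 0) ∨ ∀ i, b i = b 0 := by
  classical
  have hp0 : p ≠ 0 := hp.out.ne_zero
  obtain ⟨ζ, hζ⟩ : ∃ ζ : ℂ, IsPrimitiveRoot ζ p := ⟨_, Complex.isPrimitiveRoot_exp p hp0⟩
  let χ : ZMod p → ℂ := fun i => ζ ^ i.val
  have hχ : ∀ i j, χ (i + j) = χ i * χ j := by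
    intro i j
    simp only [χ]
    rw [ZMod.val_add, ← pow_add]
    exact (pow_eq_pow_mod _ hζ.pow_eq_one).symm
  have key : (∑ i, (a i : ℂ) * χ (-i)) * (∑ j, (b j : ℂ) * χ j) = 0 := by
    rw [Finset.sum_mul]
    have h1 : ∀ i, ((a i : ℂ) * χ (-i)) * (∑ j, (b j : ℂ) * χ j) =
        ∑ k, χ k * ((a i * b (i + k) : ℚ) : ℂ) := by
      intro i
      have h2 : ∑ j, (b j : ℂ) * χ j = ∑ k, (b (i + k) : ℂ) * χ (i + k) :=
        (Fintype.sum_equiv (Equiv.addLeft i) _ _ fun k => rfl).symm
      rw [h2, Finset.mul_sum]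
      refine Finset.sum_congr rfl fun k _ => ?_
      have h3 : χ (-i) * χ i = 1 := by
        rw [← hχ, neg_add_cancel]
        simp [χ]
      rw [hχ]
      push_cast
      linear_combination (a i : ℂ) * (b (i + k) : ℂ) * χ k * h3
    rw [Finset.sum_congr rfl fun i _ => h1 i, Finset.sum_comm]
    refine Finset.sum_eq_zero fun k _ => ?_
    rw [← Finset.mul_sum, ← Rat.cast_sum, h k, Rat.cast_zero, mul_zero]
  rcases mul_eq_zero.1 key with h1 | h1
  · left
    have h2 : ∑ i : ZMod p, ((a (-i) : ℚ) : ℂ) * ζ ^ i.val = 0 := by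
      rw [← h1]
      exact Fintype.sum_equiv (Equiv.neg (ZMod p)) _ _ fun i => by
        simp [χ]
    intro i
    have h3 := const_of_sum hζ (fun i => a (-i)) h2 (-i)
    simpa using h3
  · right
    exact const_of_sum hζ b h1

end Pool.Agent.Y156.P
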