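import Mathlib
import Pool.Agent.Y156.P.Cyc

/-!
# Functions on a transitive set with `2 g` elements, `g` prime, orthogonal to an invariant space
-/

set_option autoImplicit false
set_option linter.unusedSectionVars false
set_option linter.unusedVariables false

namespace Pool.Agent.Y156.P

open Finset Module

variable {G X : Type*} [Group G] [Finite G] [Fintype X] [MulAction G X]

/-- The case of an odd prime `g`. -/
theorem exists_eq_odd [FaithfulSMul G X] [MulAction.IsPretransitive G X] {g : ℕ} (hg : g.Prime)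
    (hg2 : g ≠ 2) (hcard : Fintype.card X = 2 * g) (c : G) (hcc : c * c = 1)
    (hcen : ∀ x, c * x = x * c) (hfree : ∀ x : X, c • x ≠ x) (w : X → ℚ)
    (hw : ∀ x, w (c • x) = - w x) (S : Submodule ℚ (X → ℚ)) (hS0 : S ≠ ⊥)
    (hSinv : ∀ γ : G, ∀ s ∈ S, (fun x => s (γ • x)) ∈ S)
    (hSodd : ∀ s ∈ S, ∀ x, s (c • x) = - s x) (horth : ∀ s ∈ S, ∑ x, w x * s x = 0) :
    (∃ x₀ x₁ : X, x₀ ≠ x₁ ∧ (∀ τ : G, w (τ • x₀) = w (τ • x₁)) ∧
      ∀ τ : G, (∀ x, w (τ • x) = w x) ∨ ∀ x, w (τ • x) = - w x) ∨
      (finrank ℚ S = 1 ∧ ∃ T : Finset X, T.card = g ∧ ∑ x ∈ T, w x = 0) := by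
  classical
  have hgF : Fact g.Prime := ⟨hg⟩
  have hcomm : ∀ (τ : G) (y : X), τ • c • y = c • τ • y := fun τ y => by
    rw [← mul_smul, ← mul_smul, hcen]
  have hG : Fintype G := Fintype.ofFinite G
  have hne : Nonempty X := by
    rw [← Fintype.card_pos_iff, hcard]
    have := hg.pos
    omega
  obtain ⟨y₀⟩ := hne
  have hdvd : g ∣ Nat.card G := by
    have h1 : (MulAction.stabilizer G y₀).index = Nat.card X :=
      MulAction.index_stabilizer_of_transitive G y₀
    have h2 := (MulAction.stabilizer G y₀).index_dvd_card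
    rw [h1, Nat.card_eq_fintype_card, hcard] at h2
    exact (Dvd.intro_left 2 rfl).trans h2
  obtain ⟨σ, hσ⟩ := exists_prime_orderOf_dvd_card' (G := G) g hdvd
  obtain ⟨x₁, hx₁⟩ : ∃ x : X, σ • x ≠ x := by
    by_contra hcon
    push Not at hcon
    have h1 : σ = 1 := by
      apply FaithfulSMul.eq_of_smul_eq_smul (α := X)
      intro a
      rw [hcon a, one_smul]
    rw [h1, orderOf_one] at hσ
    exact hg.one_lt.ne hσ
  have hpow : σ ^ g = 1 := by rw [← hσ, pow_orderOf_eq_one]
  have hper : ∀ y : X, σ • y ≠ y → ∀ n : ℕ, σ ^ n • y = y → g ∣ n := by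
    intro y hy n hn
    have h1 : MulAction.period σ y ∣ g := by
      rw [← MulAction.pow_smul_eq_iff_period_dvd, hpow, one_smul]
    have h2 : MulAction.period σ y ∣ n := MulAction.pow_smul_eq_iff_period_dvd.1 hn
    rcases (Nat.dvd_prime hg).1 h1 with h3 | h3
    · exfalso
      apply hy
      have h4 : σ ^ 1 • y = y := by
        rw [MulAction.pow_smul_eq_iff_period_dvd, h3]
      rwa [pow_one] at h4
    · rwa [h3] at h2
  have hmove : ∀ n : ℕ, σ • (σ ^ n • x₁) ≠ σ ^ n • x₁ := by
    intro n h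
    apply hx₁
    rw [← mul_smul, ← pow_succ', pow_succ, mul_smul] at h
    exact smul_left_cancel (σ ^ n) h
  let e : ZMod g → X := fun i => σ ^ i.val • x₁
  have he_add : ∀ i k : ZMod g, e (i + k) = σ ^ k.val • e i := by
    intro i k
    simp only [e]
    rw [ZMod.val_add, ← mul_smul, ← pow_add, add_comm k.val]
    congr 1
    exact (pow_eq_pow_mod _ hpow).symm
  have he_ne : ∀ i j : ZMod g, i ≠ j → e i ≠ e j := by
    intro i j hij h
    have h1 : e j = σ ^ (j - i).val • e i := by
      rw [← he_add, add_sub_cancel]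
    rw [← h] at h1
    have h2 := hper (e i) (hmove _) _ h1.symm
    have h3 := Nat.eq_zero_of_dvd_of_lt h2 (ZMod.val_lt (j - i))
    rw [ZMod.val_eq_zero, sub_eq_zero] at h3
    exact hij h3.symm
  have he_inj : Function.Injective e := by
    intro i j h
    by_contra hij
    exact he_ne i j hij h
  have he_c : ∀ i j : ZMod g, c • e i ≠ e j := by
    intro i j h
    have h1 : e j = σ ^ (j - i).val • e i := by
      rw [← he_add, add_sub_cancel]
    have h2 : c • e i = σ ^ (j - i).val • e i := by rw [h, h1]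
    have h3 : σ ^ (2 * (j - i).val) • e i = e i := by
      calc σ ^ (2 * (j - i).val) • e i = σ ^ (j - i).val • (σ ^ (j - i).val • e i) := by
            rw [two_mul, pow_add, mul_smul]
        _ = σ ^ (j - i).val • (c • e i) := by rw [h2]
        _ = c • (σ ^ (j - i).val • e i) := hcomm _ _
        _ = c • (c • e i) := by rw [h2]
        _ = e i := by rw [← mul_smul, hcc, one_smul]
    have h4 := hper (e i) (hmove _) _ h3
    have h5 : g ∣ (j - i).val := by
      refine (Nat.Coprime.dvd_mul_left ?_).1 h4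
      exact (Nat.coprime_primes hg Nat.prime_two).2 hg2
    have h6 := Nat.eq_zero_of_dvd_of_lt h5 (ZMod.val_lt (j - i))
    rw [h6, pow_zero, one_smul] at h2
    exact hfree _ h2
  let F : ZMod g ⊕ ZMod g → X := Sum.elim e fun i => c • e i
  have hF : Function.Bijective F := by
    rw [Fintype.bijective_iff_injective_and_card]
    refine ⟨?_, by rw [Fintype.card_sum, ZMod.card, hcard, two_mul]⟩
    rintro (i | i) (j | j) h
    · exact congrArg Sum.inl (he_inj h)
    · exact absurd h.symm (he_c j i)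
    · exact absurd h (he_c i j)
    · exact congrArg Sum.inr (he_inj (smul_left_cancel c h))
  have hsum : ∀ f : X → ℚ, (∀ x, f (c • x) = f x) → ∑ x, f x = 2 * ∑ i, f (e i) := by
    intro f hf
    rw [← Fintype.sum_bijective F hF (fun z => f (F z)) f fun _ => rfl, Fintype.sum_sum_type]
    simp only [F, Sum.elim_inl, Sum.elim_inr, hf]
    ring
  have horth' : ∀ s ∈ S, ∀ τ : G, ∀ k : ZMod g, ∑ i, w (τ • e i) * s (e (i + k)) = 0 := by
    intro s hs τ k
    have h1 := horth _ (hSinv (σ ^ k.val * τ⁻¹) s hs)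
    have h2 : ∑ x, w x * s ((σ ^ k.val * τ⁻¹) • x) = ∑ y, w (τ • y) * s (σ ^ k.val • y) := by
      refine (Fintype.sum_equiv (MulAction.toPerm τ) _ _ fun y => ?_).symm
      rw [MulAction.toPerm_apply, mul_smul, inv_smul_smul]
    rw [h2, hsum] at h1
    · have h3 := (mul_eq_zero.1 h1).resolve_left two_ne_zero
      rw [← h3]
      refine Finset.sum_congr rfl fun i _ => ?_
      rw [he_add]
    · intro x
      rw [hcomm, hcomm, hw, hSodd s hs]
      ring
  by_cases hconst : ∀ s ∈ S, ∀ i, s (e i) = s (e 0)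
  · right
    obtain ⟨s, hs, hs0⟩ := (Submodule.ne_bot_iff S).1 hS0
    have hval : ∀ t ∈ S, ∀ x, ∃ δ : ℚ, δ ≠ 0 ∧ t x = δ * t (e 0) ∧ s x = δ * s (e 0) := by
      intro t ht x
      obtain ⟨z, rfl⟩ := hF.2 x
      rcases z with i | i
      · exact ⟨1, one_ne_zero, by rw [one_mul]; exact hconst t ht i,
          by rw [one_mul]; exact hconst s hs i⟩
      · refine ⟨-1, by norm_num, ?_, ?_⟩
        · change t (c • e i) = _
          rw [hSodd t ht, hconst t ht i]
          ring
        · change s (c • e i) = _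
          rw [hSodd s hs, hconst s hs i]
          ring
    have hse : s (e 0) ≠ 0 := by
      intro h0
      apply hs0
      funext x
      obtain ⟨δ, -, h1, -⟩ := hval s hs x
      rw [h1, h0, mul_zero]
      rfl
    constructor
    · rw [finrank_eq_one_iff']
      refine ⟨⟨s, hs⟩, ?_, ?_⟩
      · intro h
        exact hs0 (congrArg Subtype.val h)
      · rintro ⟨t, ht⟩
        refine ⟨t (e 0) / s (e 0), Subtype.ext ?_⟩
        funext x
        obtain ⟨δ, -, h1, h2⟩ := hval t ht x
        change t (e 0) / s (e 0) * s x = t x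
        rw [h1, h2]
        field_simp
    · refine ⟨Finset.univ.image e, ?_, ?_⟩
      · rw [Finset.card_image_of_injective _ he_inj, Finset.card_univ, ZMod.card]
      · rw [Finset.sum_image fun i _ j _ h => he_inj h]
        have h1 := horth' s hs 1 0
        have h2 : ∑ i, w ((1 : G) • e i) * s (e (i + 0)) = (∑ i, w (e i)) * s (e 0) := by
          rw [Finset.sum_mul]
          refine Finset.sum_congr rfl fun i _ => ?_
          rw [one_smul, add_zero, hconst s hs i]
        rw [h2] at h1
        exact (mul_eq_zero.1 h1).resolve_right hse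
  · left
    push Not at hconst
    obtain ⟨s, hs, i, hi⟩ := hconst
    have hcst : ∀ (τ : G) (i : ZMod g), w (τ • e i) = w (τ • e 0) := by
      intro τ
      rcases const_or_const (fun i => w (τ • e i)) (fun i => s (e i))
        (fun k => horth' s hs τ k) with h | h
      · exact h
      · exact absurd (h i) hi
    refine ⟨e 0, e 1, he_ne 0 1 zero_ne_one, fun τ => (hcst τ 1).symm, fun τ => ?_⟩
    have hcase : ∀ δ : ℚ, w (τ • e 0) = δ * w (e 0) → ∀ x, w (τ • x) = δ * w x := by
      intro δ hδ x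
      obtain ⟨z, rfl⟩ := hF.2 x
      have h1 : ∀ i, w (τ • e i) = δ * w (e i) := by
        intro i
        have h2 := hcst 1 i
        rw [one_smul, one_smul] at h2
        rw [hcst, hδ, h2]
      rcases z with i | i
      · exact h1 i
      · change w (τ • c • e i) = δ * w (c • e i)
        rw [hcomm, hw, hw, h1]
        ring
    obtain ⟨z, hz⟩ := hF.2 (τ • e 0)
    have h1 : ∀ i, w (e i) = w (e 0) := by
      intro i
      have h2 := hcst 1 i
      rwa [one_smul, one_smul] at h2
    rcases z with i | i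
    · left
      intro x
      rw [hcase 1 ?_ x, one_mul]
      rw [← hz, one_mul]
      exact h1 i
    · right
      intro x
      rw [hcase (-1) ?_ x, neg_one_mul]
      rw [← hz, neg_one_mul]
      change w (c • e i) = _
      rw [hw, h1]

/-- The case `g = 1`. -/
theorem exists_eq_one (hcard : Fintype.card X = 2) (c : G) (hcc : c * c = 1)
    (hfree : ∀ x : X, c • x ≠ x) (w : X → ℚ) (hw : ∀ x, w (c • x) = - w x)
    (S : Submodule ℚ (X → ℚ)) (hS0 : S ≠ ⊥) (hSodd : ∀ s ∈ S, ∀ x, s (c • x) = - s x)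
    (horth : ∀ s ∈ S, ∑ x, w x * s x = 0) :
    ∃ x₀ x₁ : X, x₀ ≠ x₁ ∧ ∀ τ : G, w (τ • x₀) = w (τ • x₁) := by
  classical
  have hne : Nonempty X := by
    rw [← Fintype.card_pos_iff, hcard]
    norm_num
  obtain ⟨x⟩ := hne
  obtain ⟨s, hs, hs0⟩ := (Submodule.ne_bot_iff S).1 hS0
  have huniv : (Finset.univ : Finset X) = {x, c • x} := by
    symm
    apply Finset.eq_univ_of_card
    rw [Finset.card_pair (hfree x).symm, hcard]
  have hall : ∀ z : X, z = x ∨ z = c • x := by
    intro z
    have h1 := Finset.mem_univ z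
    rw [huniv, Finset.mem_insert, Finset.mem_singleton] at h1
    exact h1
  have hsx : s x ≠ 0 := by
    intro h0
    apply hs0
    funext z
    rcases hall z with rfl | rfl
    · exact h0
    · rw [hSodd s hs, h0, neg_zero]
      rfl
  have h1 := horth s hs
  rw [huniv, Finset.sum_pair (hfree x).symm, hw, hSodd s hs] at h1
  have h2 : w x = 0 := by
    have h3 : w x * s x = 0 := by linarith
    exact (mul_eq_zero.1 h3).resolve_right hsx
  have h3 : ∀ z, w z = 0 := by
    intro z
    rcases hall z with rfl | rfl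
    · exact h2
    · rw [hw, h2, neg_zero]
  exact ⟨x, c • x, (hfree x).symm, fun τ => by rw [h3, h3]⟩

/-- The case `g = 2`. -/
theorem exists_eq_two [MulAction.IsPretransitive G X] (hcard : Fintype.card X = 4) (c : G)
    (hcc : c * c = 1) (hcen : ∀ x, c * x = x * c) (hfree : ∀ x : X, c • x ≠ x) (w : X → ℚ)
    (hw : ∀ x, w (c • x) = - w x) (S : Submodule ℚ (X → ℚ)) (hS0 : S ≠ ⊥)
    (hSinv : ∀ γ : G, ∀ s ∈ S, (fun x => s (γ • x)) ∈ S)
    (hSodd : ∀ s ∈ S, ∀ x, s (c • x) = - s x) (horth : ∀ s ∈ S, ∑ x, w x * s x = 0) :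
    ∃ x₀ x₁ : X, x₀ ≠ x₁ ∧ ∀ τ : G, w (τ • x₀) = w (τ • x₁) := by
  classical
  have hcomm : ∀ (τ : G) (y : X), τ • c • y = c • τ • y := fun τ y => by
    rw [← mul_smul, ← mul_smul, hcen]
  have hcc' : ∀ y : X, c • c • y = y := fun y => by rw [← mul_smul, hcc, one_smul]
  have hne : Nonempty X := by
    rw [← Fintype.card_pos_iff, hcard]
    norm_num
  obtain ⟨x⟩ := hne
  by_cases hw0 : ∀ z, w z = 0
  · exact ⟨x, c • x, (hfree x).symm, fun τ => by rw [hw0, hw0]⟩
  push Not at hw0
  obtain ⟨z₀, hz₀⟩ := hw0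
  obtain ⟨s, hs, hs0⟩ := (Submodule.ne_bot_iff S).1 hS0
  obtain ⟨y, hy⟩ : ∃ y : X, y ∉ ({x, c • x} : Finset X) := by
    by_contra hcon
    push Not at hcon
    have h1 : (Finset.univ : Finset X) ⊆ {x, c • x} := fun z _ => hcon z
    have h2 := Finset.card_le_card h1
    rw [Finset.card_univ, hcard, Finset.card_pair (hfree x).symm] at h2
    omega
  rw [Finset.mem_insert, Finset.mem_singleton, not_or] at hy
  obtain ⟨hyx, hyc⟩ := hy
  have hcy : c • y ≠ x := by
    intro h
    apply hyc
    rw [← h, hcc']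
  have hcy' : c • y ≠ c • x := fun h => hyx (smul_left_cancel c h)
  have hcard4 : ({x, c • x, y, c • y} : Finset X).card = 4 := by
    rw [Finset.card_insert_of_notMem, Finset.card_insert_of_notMem,
      Finset.card_pair (hfree y).symm]
    · rw [Finset.mem_insert, Finset.mem_singleton, not_or]
      exact ⟨fun h => hyc h.symm, fun h => hcy' h.symm⟩
    · rw [Finset.mem_insert, Finset.mem_insert, Finset.mem_singleton, not_or, not_or]
      exact ⟨(hfree x).symm, fun h => hyx h.symm, fun h => hcy h.symm⟩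
  have huniv : ({x, c • x, y, c • y} : Finset X) = Finset.univ := by
    apply Finset.eq_univ_of_card
    rw [hcard4, hcard]
  have hall : ∀ z : X, z = x ∨ z = c • x ∨ z = y ∨ z = c • y := by
    intro z
    have h1 := Finset.mem_univ z
    rw [← huniv, Finset.mem_insert, Finset.mem_insert, Finset.mem_insert,
      Finset.mem_singleton] at h1
    exact h1
  have hsum : ∀ f : X → ℚ, (∀ x, f (c • x) = f x) → ∑ x, f x = 2 * (f x + f y) := by
    intro f hf
    rw [← huniv, Finset.sum_insert, Finset.sum_insert, Finset.sum_pair (hfree y).symm, hf, hf]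
    · ring
    · rw [Finset.mem_insert, Finset.mem_singleton, not_or]
      exact ⟨fun h => hyc h.symm, fun h => hcy' h.symm⟩
    · rw [Finset.mem_insert, Finset.mem_insert, Finset.mem_singleton, not_or, not_or]
      exact ⟨(hfree x).symm, fun h => hyx h.symm, fun h => hcy h.symm⟩
  have horth' : ∀ τ : G, w (τ • x) * s x + w (τ • y) * s y = 0 := by
    intro τ
    have h1 := horth _ (hSinv τ⁻¹ s hs)
    have h2 : ∑ x, w x * s (τ⁻¹ • x) = ∑ y, w (τ • y) * s y := by
      refine (Fintype.sum_equiv (MulAction.toPerm τ) _ _ fun y => ?_).symm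
      rw [MulAction.toPerm_apply, inv_smul_smul]
    rw [h2, hsum] at h1
    · exact (mul_eq_zero.1 h1).resolve_left two_ne_zero
    · intro x
      rw [hcomm, hw, hSodd s hs]
      ring
  have hst : s x ≠ 0 ∨ s y ≠ 0 := by
    by_contra hcon
    push Not at hcon
    apply hs0
    funext z
    rcases hall z with rfl | rfl | rfl | rfl
    · exact hcon.1
    · rw [hSodd s hs, hcon.1, neg_zero]
      rfl
    · exact hcon.2
    · rw [hSodd s hs, hcon.2, neg_zero]
      rfl
  obtain ⟨ρ, hρ⟩ := MulAction.exists_smul_eq G x y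
  have hρy : ∃ δ : ℚ, (δ = 1 ∨ δ = -1) ∧ ∀ τ : G, w (τ • ρ • y) = δ * w (τ • x) := by
    rcases hall (ρ • y) with h | h | h | h
    · exact ⟨1, Or.inl rfl, fun τ => by rw [h, one_mul]⟩
    · exact ⟨-1, Or.inr rfl, fun τ => by rw [h, hcomm, hw]; ring⟩
    · exfalso
      rw [← hρ] at h
      have h1 : ρ • x = x := smul_left_cancel ρ h
      exact hyx (by rw [← hρ, h1])
    · exfalso
      rw [← hρ, ← hcomm] at h
      have h1 : ρ • x = c • x := smul_left_cancel ρ h
      exact hyc (by rw [← hρ]; exact h1)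
  obtain ⟨δ, hδ, hδw⟩ := hρy
  have hδ2 : δ * δ = 1 := by rcases hδ with h | h <;> rw [h] <;> norm_num
  have horth2 : ∀ τ : G, w (τ • y) * s x + δ * w (τ • x) * s y = 0 := by
    intro τ
    have h1 := horth' (τ * ρ)
    rw [mul_smul, mul_smul, hρ, hδw] at h1
    exact h1
  obtain ⟨τ₀, hτ₀⟩ := MulAction.exists_smul_eq G x z₀
  have hA : w (τ₀ • x) ≠ 0 := by rw [hτ₀]; exact hz₀
  have hsq : s x * s x = δ * (s y * s y) := by
    have h1 := horth' τ₀
    have h2 := horth2 τ₀
    have h3 : w (τ₀ • x) * (s x * s x - δ * (s y * s y)) = 0 := by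
      linear_combination s x * h1 - s y * h2
    exact sub_eq_zero.1 ((mul_eq_zero.1 h3).resolve_left hA)
  have hδ1 : δ = 1 := by
    rcases hδ with h | h
    · exact h
    · exfalso
      rw [h] at hsq
      rcases hst with h1 | h1
      · have := mul_self_pos.2 h1
        nlinarith [mul_self_nonneg (s y)]
      · have := mul_self_pos.2 h1
        nlinarith [mul_self_nonneg (s x)]
  rw [hδ1, one_mul] at hsq
  have hsy : s y ≠ 0 := by
    intro h0
    rw [h0, mul_zero] at hsq
    have h1 : s x = 0 := by simpa using hsq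
    rcases hst with h2 | h2
    · exact h2 h1
    · exact h2 h0
  rcases mul_self_eq_mul_self_iff.1 hsq with h | h
  · refine ⟨y, c • x, hyc, fun τ => ?_⟩
    have h1 := horth' τ
    rw [h, ← add_mul] at h1
    have h2 := (mul_eq_zero.1 h1).resolve_right hsy
    rw [hcomm, hw]
    linarith
  · refine ⟨x, y, fun h => hyx h.symm, fun τ => ?_⟩
    have h1 := horth' τ
    rw [h, mul_neg, neg_add_eq_sub, ← sub_mul] at h1
    have h2 := (mul_eq_zero.1 h1).resolve_right hsy
    linarith

end Pool.Agent.Y156.P
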