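import Mathlib
import Pool.Agent.TH170.MF.Field
import Pool.Agent.TH170.MF.Quad2
import Pool.Agent.Y156.P.Cycle

/-!
# Functions on the embeddings of a CM field of prime degree over its totally real part
-/

set_option autoImplicit false
set_option linter.unusedSectionVars false
set_option linter.unusedVariables false

namespace Pool.Agent.Y156.P

open NumberField Finset Module Pool.Agent.H204R3.CM Pool.Agent.TH170.CM Pool.Agent.TH170.MF

variable {E : Type} [Field E] [NumberField E] [IsCMField E]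

theorem comp_conj (σ : ℂ ≃+* ℂ) (φ : E →+* ℂ) :
    (σ : ℂ →+* ℂ).comp (ComplexEmbedding.conjugate φ) =
      ComplexEmbedding.conjugate ((σ : ℂ →+* ℂ).comp φ) := by
  ext x
  have h4 : ComplexEmbedding.conjugate φ x = φ (IsCMField.complexConj E x) := by
    rw [ComplexEmbedding.conjugate_coe_eq, IsCMField.complexEmbedding_complexConj]
  have h5 : ComplexEmbedding.conjugate ((σ : ℂ →+* ℂ).comp φ) x =
      ((σ : ℂ →+* ℂ).comp φ) (IsCMField.complexConj E x) := by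
    rw [ComplexEmbedding.conjugate_coe_eq, IsCMField.complexEmbedding_complexConj]
  rw [h5]
  change σ (ComplexEmbedding.conjugate φ x) = σ (φ (IsCMField.complexConj E x))
  rw [h4]

theorem sum_odd_ne {X : Type*} (T : Finset X) (hT : Odd T.card) (z : X → ℤ)
    (hz : ∀ x, Odd (z x)) : ∑ x ∈ T, z x ≠ 0 := by
  classical
  intro h
  have h1 : ((∑ x ∈ T, z x : ℤ) : ZMod 2) = (T.card : ZMod 2) := by
    push_cast
    rw [← nsmul_one T.card, ← Finset.sum_const]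
    refine Finset.sum_congr rfl fun x _ => ?_
    obtain ⟨k, hk⟩ := hz x
    rw [hk]
    push_cast
    have : (2 : ZMod 2) = 0 := rfl
    rw [this, zero_mul, zero_add]
  rw [h, Int.cast_zero] at h1
  have h2 := (ZMod.natCast_eq_zero_iff_even).1 h1.symm
  exact (Nat.not_even_iff_odd.2 hT) h2

/-- A function which is odd under the complex conjugation and orthogonal to a minimal space takes
the same values at two embeddings and all their images under automorphisms. -/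
theorem exists_same {g : ℕ} (hg : finrank ℚ E = 2 * g)
    {S : Submodule ℚ ((E →+* ℂ) → ℚ)} (hS : S ∈ minimalSpaces E) (w : (E →+* ℂ) → ℚ)
    (hw : ∀ φ, w (ComplexEmbedding.conjugate φ) = - w φ)
    (horth : ∀ s ∈ S, ∑ φ, w φ * s φ = 0)
    (hexc : g = 1 ∨ g = 2 ∨ (g.Prime ∧ ((∀ F : IntermediateField ℚ E, finrank ℚ F ≠ 2) ∨
      ∃ (D : ℚ) (z : (E →+* ℂ) → ℤ), D ≠ 0 ∧ (∀ φ, D * w φ = z φ) ∧ ∀ φ, Odd (z φ)))) :
    ∃ φ₀ φ₁ : E →+* ℂ, φ₀ ≠ φ₁ ∧
      ∀ τ : ℂ ≃+* ℂ, w ((τ : ℂ →+* ℂ).comp φ₀) = w ((τ : ℂ →+* ℂ).comp φ₁) := by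
  classical
  obtain ⟨hS0, hst, hodd, hmin⟩ := hS
  obtain ⟨c, hc⟩ := exists_gal_smul E (starRingAut : ℂ ≃+* ℂ)
  have hc' : ∀ φ : E →+* ℂ, c • φ = ComplexEmbedding.conjugate φ := fun φ => by
    rw [hc]
    rfl
  have hinj : ∀ x y : Gal E, (∀ φ : E →+* ℂ, x • φ = y • φ) → x = y := fun x y h =>
    Subtype.ext (Equiv.ext h)
  have hcc : c * c = 1 := hinj _ _ fun φ => by
    rw [mul_smul, hc', hc', conj_conj, one_smul]
  have hcen : ∀ x : Gal E, c * x = x * c := fun x => hinj _ _ fun φ => by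
    obtain ⟨σ, hσ⟩ := gal_smul E x
    rw [mul_smul, mul_smul, hc', hc', hσ, hσ, comp_conj]
  have hfree : ∀ φ : E →+* ℂ, c • φ ≠ φ := fun φ => by
    rw [hc']
    exact conj_ne φ
  have hSinv : ∀ γ : Gal E, ∀ s ∈ S, (fun φ => s (γ • φ)) ∈ S :=
    (invariant_iff S).2 hst
  have hSodd : ∀ s ∈ S, ∀ φ, s (c • φ) = - s φ := fun s hs φ => by
    rw [hc']
    exact hodd s hs φ
  have hw' : ∀ φ, w (c • φ) = - w φ := fun φ => by
    rw [hc', hw]
  have hcard : Fintype.card (E →+* ℂ) = 2 * g := by rw [Embeddings.card, hg]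
  have hfinish : (∃ φ₀ φ₁ : E →+* ℂ, φ₀ ≠ φ₁ ∧ ∀ γ : Gal E, w (γ • φ₀) = w (γ • φ₁)) →
      ∃ φ₀ φ₁ : E →+* ℂ, φ₀ ≠ φ₁ ∧
        ∀ τ : ℂ ≃+* ℂ, w ((τ : ℂ →+* ℂ).comp φ₀) = w ((τ : ℂ →+* ℂ).comp φ₁) := by
    rintro ⟨φ₀, φ₁, hne, h⟩
    refine ⟨φ₀, φ₁, hne, fun τ => ?_⟩
    obtain ⟨γ, hγ⟩ := exists_gal_smul E τ
    rw [← hγ, ← hγ]
    exact h γ
  by_cases h1 : g = 1
  · apply hfinish
    exact exists_eq_one (by rw [hcard, h1]) c hcc hfree w hw' S hS0 hSodd horth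
  by_cases h2 : g = 2
  · apply hfinish
    exact exists_eq_two (by rw [hcard, h2]) c hcc hcen hfree w hw' S hS0 hSinv hSodd horth
  obtain ⟨hgp, hexc⟩ := (hexc.resolve_left h1).resolve_left h2
  rcases exists_eq_odd hgp h2 hcard c hcc hcen hfree w hw' S hS0 hSinv hSodd horth with
    ⟨x₀, x₁, h3, h4, -⟩ | ⟨hrank, T, hT, hsum⟩
  · exact hfinish ⟨x₀, x₁, h3, h4⟩
  exfalso
  rcases hexc with hF | ⟨D, z, hD, hz, hzodd⟩
  · obtain ⟨L, _, _, j, hj⟩ := exists_galois (fun _ : Unit => E)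
    obtain ⟨ψ₀⟩ : Nonempty (E →+* ℂ) := inferInstance
    obtain ⟨φ₀, -⟩ := hj () ψ₀
    obtain ⟨ε, hε, hSε⟩ := exists_signChar ⟨hS0, hst, hodd, hmin⟩ hrank
    exact hF _ (finrank_fldE j hε φ₀)
  · refine sum_odd_ne T ?_ z hzodd ?_
    · rw [hT]
      exact hgp.odd_of_ne_two h2
    · have h3 : ((∑ φ ∈ T, z φ : ℤ) : ℚ) = 0 := by
        push_cast
        rw [← mul_zero D, ← hsum, Finset.mul_sum]
        exact Finset.sum_congr rfl fun φ _ => (hz φ).symm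
      exact_mod_cast h3

end Pool.Agent.Y156.P
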