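import Mathlib
import Pool.Agent.Y156.P.Field
import Pool.Agent.Y156.P.IrrDefs

/-!
# Irreducibility of the odd part, and numbers of small degree
-/

set_option autoImplicit false
set_option linter.unusedSectionVars false
set_option linter.unusedVariables false

namespace Pool.Agent.Y156.P

open NumberField Finset Module Pool.Agent.H204R3.CM Pool.Agent.TH170.CM Pool.Agent.TH170.MF
open scoped IntermediateField Classical

variable {E : Type} [Field E] [NumberField E] [IsCMField E]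

/-- There is an odd function orthogonal to a space of odd functions that does not contain all of
them. -/
theorem exists_orth (S : Submodule ℚ ((E →+* ℂ) → ℚ)) {u : (E →+* ℂ) → ℚ}
    (hodd : IsOddSpace S) (hu : ∀ φ, u (ComplexEmbedding.conjugate φ) = - u φ) (huS : u ∉ S) :
    ∃ w : (E →+* ℂ) → ℚ, w ≠ 0 ∧ (∀ φ, w (ComplexEmbedding.conjugate φ) = - w φ) ∧
      ∀ s ∈ S, ∑ φ, w φ * s φ = 0 := by
  obtain ⟨f, hf, hS⟩ := Submodule.exists_le_ker_of_notMem huS
  let b : (E →+* ℂ) → ℚ := fun φ => f (Pi.single φ 1)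
  have hb : ∀ v : (E →+* ℂ) → ℚ, f v = ∑ φ, b φ * v φ := by
    intro v
    conv_lhs => rw [← Finset.univ_sum_single v]
    rw [map_sum]
    refine Finset.sum_congr rfl fun φ _ => ?_
    have h1 : (Pi.single φ (v φ) : (E →+* ℂ) → ℚ) = v φ • Pi.single φ (1 : ℚ) := by
      rw [← Pi.single_smul, smul_eq_mul, mul_one]
    rw [h1, map_smul, smul_eq_mul, mul_comm]
  let w : (E →+* ℂ) → ℚ := fun φ => b φ - b (ComplexEmbedding.conjugate φ)
  have hw : ∀ v : (E →+* ℂ) → ℚ, (∀ φ, v (ComplexEmbedding.conjugate φ) = - v φ) →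
      ∑ φ, w φ * v φ = 2 * f v := by
    intro v hv
    have h1 : ∑ φ, b (ComplexEmbedding.conjugate φ) * v φ = - f v := by
      rw [hb, ← Finset.sum_neg_distrib]
      refine Finset.sum_nbij' ComplexEmbedding.conjugate ComplexEmbedding.conjugate
        (fun _ _ => Finset.mem_univ _) (fun _ _ => Finset.mem_univ _) (fun φ _ => conj_conj φ)
        (fun φ _ => conj_conj φ) (fun φ _ => ?_)
      rw [hv]
      ring
    simp only [w, sub_mul, Finset.sum_sub_distrib]
    rw [h1, ← hb]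
    ring
  refine ⟨w, ?_, ?_, ?_⟩
  · intro h0
    apply hf
    have h1 := hw u hu
    rw [h0] at h1
    simp only [Pi.zero_apply, zero_mul, Finset.sum_const_zero] at h1
    linarith
  · intro φ
    simp only [w, conj_conj]
    ring
  · intro s hs
    rw [hw s (hodd s hs)]
    have h1 : f s = 0 := hS hs
    rw [h1, mul_zero]

/-- A CM field of odd prime degree over its totally real subfield without quadratic subfields has an
irreducible odd part. -/
theorem oddIrreducible_of_prime {g : ℕ} (hgp : g.Prime) (hg2 : g ≠ 2)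
    (hg : finrank ℚ E = 2 * g) (hF : ∀ F : IntermediateField ℚ E, finrank ℚ F ≠ 2) :
    OddIrreducible E := by
  intro S hst hodd
  by_contra hcon
  push Not at hcon
  obtain ⟨hS0, u, hu, huS⟩ := hcon
  obtain ⟨w, hw0, hw, horth⟩ := exists_orth S hodd hu huS
  obtain ⟨L, _, _, j, hj⟩ := exists_galois (fun _ : Unit => E)
  obtain ⟨ψ₀⟩ : Nonempty (E →+* ℂ) := inferInstance
  obtain ⟨φ₀, -⟩ := hj () ψ₀
  obtain ⟨c, hc⟩ := exists_gal_smul E (starRingAut : ℂ ≃+* ℂ)
  have hc' : ∀ φ : E →+* ℂ, c • φ = ComplexEmbedding.conjugate φ := fun φ => by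
    rw [hc]
    rfl
  have hinj : ∀ x y : Gal E, (∀ φ : E →+* ℂ, x • φ = y • φ) → x = y := fun x y h =>
    Subtype.ext (Equiv.ext h)
  have hcc : c * c = 1 := hinj _ _ fun φ => by
    rw [mul_smul, hc', hc', conj_conj, one_smul]
  have hcen : ∀ x : Gal E, c * x = x * c := fun x => hinj _ _ fun φ => by
    obtain ⟨σ, hσ⟩ := gal_smul E x
    rw [mul_smul, mul_smul, hc', hc', hσ, hσ, comp_conj]
  have hfree : ∀ φ : E →+* ℂ, c • φ ≠ φ := fun φ => by
    rw [hc']
    exact conj_ne φ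
  have hSinv : ∀ γ : Gal E, ∀ s ∈ S, (fun φ => s (γ • φ)) ∈ S :=
    (invariant_iff S).2 hst
  have hSodd : ∀ s ∈ S, ∀ φ, s (c • φ) = - s φ := fun s hs φ => by
    rw [hc']
    exact hodd s hs φ
  have hw' : ∀ φ, w (c • φ) = - w φ := fun φ => by
    rw [hc', hw]
  have hcard : Fintype.card (E →+* ℂ) = 2 * g := by rw [Embeddings.card, hg]
  rcases exists_eq_odd hgp hg2 hcard c hcc hcen hfree w hw' S hS0 hSinv hSodd horth with
    ⟨x₀, x₁, -, -, hsign⟩ | ⟨hrank, -⟩
  · have hne : ∀ φ, w φ ≠ 0 := by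
      intro φ h0
      apply hw0
      funext ψ
      obtain ⟨γ, hγ⟩ := MulAction.exists_smul_eq (Gal E) φ ψ
      rcases hsign γ with h1 | h1
      · rw [← hγ, h1, h0]
        rfl
      · rw [← hγ, h1, h0, neg_zero]
        rfl
    have hε : IsSignChar (fun φ : E →+* ℂ => if 0 < w φ then (1 : ℤ) else -1) := by
      have hneg : ∀ x : ℚ, x ≠ 0 → (if 0 < -x then (1 : ℤ) else -1) =
          -(if 0 < x then (1 : ℤ) else -1) := by
        intro x hx
        rcases lt_or_gt_of_ne hx with h | h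
        · rw [if_pos (by linarith), if_neg (by linarith), neg_neg]
        · rw [if_neg (by linarith), if_pos h]
      refine ⟨fun φ => ?_, fun σ => ?_, fun φ => ?_⟩
      · split_ifs
        · exact Or.inl rfl
        · exact Or.inr rfl
      · obtain ⟨γ, hγ⟩ := exists_gal_smul E σ
        rcases hsign γ with h1 | h1
        · left
          intro φ
          rw [← hγ, h1]
        · right
          intro φ
          rw [← hγ, h1]
          exact hneg _ (hne φ)
      · rw [hw]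
        exact hneg _ (hne φ)
    exact hF _ (finrank_fldE j hε φ₀)
  · have hSmin : S ∈ minimalSpaces E := by
      refine ⟨hS0, hst, hodd, fun S' hS' hle => ?_⟩
      by_cases h0 : S' = ⊥
      · exact Or.inl h0
      · right
        apply Submodule.eq_of_le_of_finrank_le hle
        rw [hrank, Nat.succ_le_iff, Nat.pos_iff_ne_zero, Ne, Submodule.finrank_eq_zero]
        exact h0
    obtain ⟨ε, hε, -⟩ := exists_signChar hSmin hrank
    exact hF _ (finrank_fldE j hε φ₀)

/-- The automorphisms of the complex numbers permute the roots of an irreducible polynomial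
transitively. -/
theorem exists_aut_root {ρ r : ℂ} (hρ : IsAlgebraic ℚ ρ)
    (hr : Polynomial.aeval r (minpoly ℚ ρ) = 0) : ∃ σ : ℂ ≃+* ℂ, σ ρ = r := by
  have hint : IsIntegral ℚ ρ := hρ.isIntegral
  have : FiniteDimensional ℚ ℚ⟮ρ⟯ := IntermediateField.adjoin.finiteDimensional hint
  have : NumberField ℚ⟮ρ⟯ := NumberField.mk
  let χ : ℚ⟮ρ⟯ →ₐ[ℚ] ℂ := (IntermediateField.adjoin.powerBasis hint).lift r (by
    rw [IntermediateField.adjoin.powerBasis_gen, IntermediateField.minpoly_gen]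
    exact hr)
  obtain ⟨σ, hσ⟩ := exists_comp_eq ℚ⟮ρ⟯ (algebraMap ℚ⟮ρ⟯ ℂ) (χ : ℚ⟮ρ⟯ →+* ℂ)
  refine ⟨σ, ?_⟩
  have h1 := RingHom.congr_fun hσ (IntermediateField.AdjoinSimple.gen ℚ ρ)
  have h2 : χ (IntermediateField.AdjoinSimple.gen ℚ ρ) = r := by
    have h3 := (IntermediateField.adjoin.powerBasis hint).lift_gen r (by
      rw [IntermediateField.adjoin.powerBasis_gen, IntermediateField.minpoly_gen]
      exact hr)
    exact (congrArg χ (IntermediateField.adjoin.powerBasis_gen hint)).symm.trans h3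
  rw [RingHom.comp_apply, IntermediateField.AdjoinSimple.algebraMap_gen] at h1
  exact h1.trans h2

/-- Algebraic numbers of degree less than the degree of a CM field with irreducible odd part are
independent of this field. -/
theorem exists_of_degree (hE : OddIrreducible E) {ρ : ℂ} (hρ : IsAlgebraic ℚ ρ)
    (hdeg : (minpoly ℚ ρ).natDegree < finrank ℚ E) (ψ : E →+* ℂ) :
    ∃ τ : ℂ ≃+* ℂ, τ ρ = ρ ∧ ∀ x, τ (ψ x) = ComplexEmbedding.conjugate ψ x := by
  by_contra hcon
  let O : Set (E →+* ℂ) := {φ | ∃ τ : ℂ ≃+* ℂ, τ ρ = ρ ∧ φ = (τ : ℂ →+* ℂ).comp ψ}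
  have hψO : ψ ∈ O := ⟨RingEquiv.refl ℂ, rfl, by ext x; rfl⟩
  have hcψO : ComplexEmbedding.conjugate ψ ∉ O := by
    rintro ⟨τ, h1, h2⟩
    exact hcon ⟨τ, h1, fun x => (RingHom.congr_fun h2 x).symm⟩
  have hOinv : ∀ τ : ℂ ≃+* ℂ, τ ρ = ρ → ∀ φ, (τ : ℂ →+* ℂ).comp φ ∈ O ↔ φ ∈ O := by
    intro τ hτ φ
    constructor
    · rintro ⟨τ', h1, h2⟩
      refine ⟨τ'.trans τ.symm, ?_, ?_⟩
      · change τ.symm (τ' ρ) = ρ
        rw [h1, RingEquiv.symm_apply_eq, hτ]
      · ext x
        have h3 : τ (φ x) = τ' (ψ x) := RingHom.congr_fun h2 x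
        change φ x = τ.symm (τ' (ψ x))
        rw [← h3, RingEquiv.symm_apply_apply]
    · rintro ⟨τ', h1, rfl⟩
      refine ⟨τ'.trans τ, ?_, ?_⟩
      · change τ (τ' ρ) = ρ
        rw [h1, hτ]
      · ext x
        rfl
  let u : (E →+* ℂ) → ℚ := fun φ =>
    (if φ ∈ O then 1 else 0) - (if ComplexEmbedding.conjugate φ ∈ O then 1 else 0)
  have huc : ∀ φ, u (ComplexEmbedding.conjugate φ) = - u φ := by
    intro φ
    simp only [u, conj_conj]
    ring
  have hu1 : u ψ = 1 := by
    simp only [u]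
    rw [if_pos hψO, if_neg hcψO, sub_zero]
  have huinv : ∀ τ : ℂ ≃+* ℂ, τ ρ = ρ → ∀ φ, u ((τ : ℂ →+* ℂ).comp φ) = u φ := by
    intro τ hτ φ
    simp only [u]
    rw [← comp_conj, if_congr (hOinv τ hτ φ) rfl rfl,
      if_congr (hOinv τ hτ (ComplexEmbedding.conjugate φ)) rfl rfl]
  -- the translates
  let tr : (ℂ ≃+* ℂ) → ((E →+* ℂ) → ℚ) := fun σ φ => u ((σ.symm : ℂ →+* ℂ).comp φ)
  have htr : ∀ σ σ' : ℂ ≃+* ℂ, σ ρ = σ' ρ → tr σ = tr σ' := by
    intro σ σ' h
    funext φ
    have h1 := huinv (σ.trans σ'.symm) (by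
      change σ'.symm (σ ρ) = ρ
      rw [h, RingEquiv.symm_apply_apply]) ((σ.symm : ℂ →+* ℂ).comp φ)
    have h2 : ((σ.trans σ'.symm : ℂ ≃+* ℂ) : ℂ →+* ℂ).comp ((σ.symm : ℂ →+* ℂ).comp φ) =
        (σ'.symm : ℂ →+* ℂ).comp φ := by
      ext x
      change σ'.symm (σ (σ.symm (φ x))) = σ'.symm (φ x)
      rw [RingEquiv.apply_symm_apply]
    rw [h2] at h1
    exact h1.symm
  have hne : ∀ σ, tr σ ≠ 0 := by
    intro σ h0
    have h1 := congrFun h0 ((σ : ℂ →+* ℂ).comp ψ)
    have h2 : (σ.symm : ℂ →+* ℂ).comp ((σ : ℂ →+* ℂ).comp ψ) = ψ := by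
      ext x
      exact σ.symm_apply_apply (ψ x)
    simp only [tr] at h1
    rw [h2, hu1] at h1
    exact one_ne_zero h1
  have htrc : ∀ σ : ℂ ≃+* ℂ, tr (σ.trans (starRingAut : ℂ ≃+* ℂ)) = - tr σ := by
    intro σ
    funext φ
    have h1 : (((σ.trans (starRingAut : ℂ ≃+* ℂ)).symm : ℂ ≃+* ℂ) : ℂ →+* ℂ).comp φ =
        (σ.symm : ℂ →+* ℂ).comp (ComplexEmbedding.conjugate φ) := by
      ext x
      rfl
    change u _ = - u _
    rw [h1, comp_conj, huc]
  let S : Submodule ℚ ((E →+* ℂ) → ℚ) := Submodule.span ℚ (Set.range tr)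
  have hSst : ∀ σ : ℂ ≃+* ℂ, ∀ s ∈ S, (fun φ => s ((σ : ℂ →+* ℂ).comp φ)) ∈ S := by
    intro σ s hs
    let l : ((E →+* ℂ) → ℚ) →ₗ[ℚ] ((E →+* ℂ) → ℚ) :=
      LinearMap.funLeft ℚ ℚ fun φ => (σ : ℂ →+* ℂ).comp φ
    have h1 : S ≤ S.comap l := by
      refine Submodule.span_le.2 ?_
      rintro _ ⟨σ', rfl⟩
      change l (tr σ') ∈ S
      have h2 : l (tr σ') = tr (σ'.trans σ.symm) := by
        funext φ
        rfl
      rw [h2]
      exact Submodule.subset_span ⟨_, rfl⟩
    exact h1 hs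
  have hSodd : ∀ s ∈ S, ∀ φ, s (ComplexEmbedding.conjugate φ) = - s φ := by
    intro s hs
    induction hs using Submodule.span_induction with
    | mem x hx =>
      obtain ⟨σ, rfl⟩ := hx
      intro φ
      change u _ = - u _
      rw [comp_conj, huc]
    | zero => intro φ; simp
    | add x y _ _ h1 h2 =>
      intro φ
      rw [Pi.add_apply, Pi.add_apply, h1, h2]
      ring
    | smul a x _ h1 =>
      intro φ
      rw [Pi.smul_apply, Pi.smul_apply, h1, smul_neg]
  have hall := (hE S hSst hSodd).resolve_left (by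
    intro h0
    have h1 : tr (RingEquiv.refl ℂ) ∈ S := Submodule.subset_span ⟨_, rfl⟩
    rw [h0, Submodule.mem_bot] at h1
    exact hne _ h1)
  -- the roots
  let R : Finset ℂ := ((minpoly ℚ ρ).aroots ℂ).toFinset
  have hmin0 : minpoly ℚ ρ ≠ 0 := minpoly.ne_zero hρ.isIntegral
  have hmemR : ∀ r, r ∈ R ↔ Polynomial.aeval r (minpoly ℚ ρ) = 0 := by
    intro r
    rw [Multiset.mem_toFinset, Polynomial.mem_aroots]
    exact ⟨fun h => h.2, fun h => ⟨hmin0, h⟩⟩
  have hRcard : R.card ≤ (minpoly ℚ ρ).natDegree := by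
    refine (Multiset.toFinset_card_le _).trans ?_
    refine (Polynomial.card_roots' _).trans ?_
    exact Polynomial.natDegree_map_le
  have hσR : ∀ σ : ℂ ≃+* ℂ, σ ρ ∈ R := by
    intro σ
    rw [hmemR]
    have h1 := Polynomial.aeval_algHom_apply ((σ : ℂ →+* ℂ).toRatAlgHom) ρ (minpoly ℚ ρ)
    rw [minpoly.aeval, map_zero] at h1
    exact h1
  have hex : ∀ r ∈ R, ∃ σ : ℂ ≃+* ℂ, σ ρ = r := fun r hr =>
    exists_aut_root hρ ((hmemR r).1 hr)
  have hreal : ∀ r ∈ R, r.im ≠ 0 := by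
    intro r hr h0
    obtain ⟨σ, hσ⟩ := hex r hr
    have h1 : (σ.trans (starRingAut : ℂ ≃+* ℂ)) ρ = σ ρ := by
      change (starRingEnd ℂ) (σ ρ) = σ ρ
      rw [hσ]
      exact Complex.conj_eq_iff_im.2 h0
    have h2 := htr _ _ h1
    rw [htrc] at h2
    apply hne σ
    funext φ
    have h3 := congrFun h2 φ
    rw [Pi.neg_apply] at h3
    rw [Pi.zero_apply]
    linarith
  let T : Finset ℂ := R.filter fun r => 0 < r.im
  let T' : Finset ℂ := R.filter fun r => ¬ 0 < r.im
  have hTcard : 2 * T.card ≤ R.card := by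
    have h1 : T.card + T'.card = R.card := Finset.card_filter_add_card_filter_not _
    have h2 : T.card ≤ T'.card := by
      refine Finset.card_le_card_of_injOn (starRingEnd ℂ) ?_ ?_
      · intro r hr
        have hr' : r ∈ T := hr
        rw [Finset.mem_filter] at hr'
        change (starRingEnd ℂ) r ∈ T'
        rw [Finset.mem_filter]
        constructor
        · obtain ⟨σ, rfl⟩ := hex r hr'.1
          exact hσR (σ.trans (starRingAut : ℂ ≃+* ℂ))
        · rw [Complex.conj_im]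
          linarith [hr'.2]
      · intro r _ r' _ h
        exact (starRingEnd ℂ).injective h
    omega
  have hch : ∀ r : T, ∃ σ : ℂ ≃+* ℂ, σ ρ = r := fun r =>
    hex r (Finset.mem_of_mem_filter _ r.2)
  choose s hs using hch
  have hSle : S ≤ Submodule.span ℚ (Set.range fun r : T => tr (s r)) := by
    refine Submodule.span_le.2 ?_
    rintro _ ⟨σ, rfl⟩
    by_cases h : 0 < (σ ρ).im
    · have h1 : σ ρ ∈ T := Finset.mem_filter.2 ⟨hσR σ, h⟩
      have h2 : tr σ = tr (s ⟨_, h1⟩) := htr _ _ (hs ⟨_, h1⟩).symm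
      rw [h2]
      exact Submodule.subset_span ⟨_, rfl⟩
    · have h1 : (σ.trans (starRingAut : ℂ ≃+* ℂ)) ρ ∈ T := by
        refine Finset.mem_filter.2 ⟨hσR _, ?_⟩
        change 0 < ((starRingEnd ℂ) (σ ρ)).im
        rw [Complex.conj_im]
        have h2 := hreal _ (hσR σ)
        rcases lt_or_gt_of_ne h2 with h3 | h3
        · linarith
        · exact absurd h3 h
      have h2 : tr (σ.trans (starRingAut : ℂ ≃+* ℂ)) = tr (s ⟨_, h1⟩) :=
        htr _ _ (hs ⟨_, h1⟩).symm
      rw [htrc] at h2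
      have h3 : tr σ = - tr (s ⟨_, h1⟩) := by rw [← h2, neg_neg]
      rw [h3]
      exact Submodule.neg_mem _ (Submodule.subset_span ⟨_, rfl⟩)
  -- the dimension
  obtain ⟨X, hX⟩ := exists_transversal (X := E →+* ℂ)
    (c := ComplexEmbedding.conjugate (K := E)) conj_conj conj_ne
  have hXcard : finrank ℚ E = 2 * X.card := by
    rw [← Embeddings.card E ℂ]
    exact card_transversal conj_conj hX
  have hsurj : Function.Surjective
      ((LinearMap.funLeft ℚ ℚ (Subtype.val : X → (E →+* ℂ))).comp S.subtype) := by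
    intro v
    let v' : (E →+* ℂ) → ℚ := fun φ =>
      (if h : φ ∈ X then v ⟨φ, h⟩ else 0) -
        (if h : ComplexEmbedding.conjugate φ ∈ X then v ⟨_, h⟩ else 0)
    refine ⟨⟨v', hall v' fun φ => ?_⟩, ?_⟩
    · simp only [v', conj_conj]
      ring
    · funext φ
      change v' φ.1 = v φ
      simp only [v']
      rw [dif_pos φ.2, dif_neg ((hX φ.1).1 φ.2), sub_zero]
  have h1 : X.card ≤ finrank ℚ S := by
    have h2 := LinearMap.finrank_range_le
      ((LinearMap.funLeft ℚ ℚ (Subtype.val : X → (E →+* ℂ))).comp S.subtype)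
    rw [LinearMap.range_eq_top.2 hsurj, finrank_top, Module.finrank_fintype_fun_eq_card,
      Fintype.card_coe] at h2
    exact h2
  have h2 : finrank ℚ S ≤ T.card := by
    refine (Submodule.finrank_mono hSle).trans ?_
    refine (finrank_range_le_card _).trans ?_
    rw [Fintype.card_coe]
  omega

end Pool.Agent.Y156.P
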