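import Mathlib
import Pool.Agent.Y1.CT.IndepDefs
import Pool.Agent.Y156.P.Defs
import Pool.Agent.Y156.P.Irr

/-!
# Criteria for the independence of fields and numbers
-/

set_option autoImplicit false
set_option linter.unusedSectionVars false
set_option linter.unusedVariables false

namespace Pool.Agent.Y156.P

open NumberField Module Pool.Agent.H204R3.CM Pool.Agent.H977R3.CM Pool.Agent.Y1.CT
open scoped IntermediateField

/-- Numbers of small degree are independent. -/
theorem independent_of_degree {I : Type} {K : I → Type} [∀ i, Field (K i)]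
    [∀ i, NumberField (K i)] [∀ i, IsCMField (K i)] {ρ : ℂ} (hρ0 : ρ ≠ 0) (hρ : IsAlgebraic ℚ ρ)
    (h : ∀ i, OddIrreducible (K i) ∧ (minpoly ℚ ρ).natDegree < finrank ℚ (K i)) :
    Independent K ρ := by
  refine ⟨hρ0, fun i ψ => ?_⟩
  obtain ⟨τ, h1, h2⟩ := exists_of_degree (h i).1 hρ (h i).2 ψ
  exact ⟨τ, 1, one_pos, by rw [pow_one, h1], h2⟩

/-- An automorphism that is the identity on the smaller field and the complex conjugation on the
larger one. -/
theorem exists_sep {E F : Type} [Field E] [NumberField E] [IsCMField E] [Field F] [NumberField F]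
    (hE : OddIrreducible E) (hlt : finrank ℚ F < finrank ℚ E) (φ : F →+* ℂ) (ψ : E →+* ℂ) :
    ∃ σ : ℂ ≃+* ℂ, (∀ x, σ (φ x) = φ x) ∧ ∀ y, σ (ψ y) = (starRingEnd ℂ) (ψ y) := by
  obtain ⟨α, hα⟩ := Field.exists_primitive_element ℚ F
  have hint : IsIntegral ℚ α := Algebra.IsIntegral.isIntegral α
  let φ' : F →ₐ[ℚ] ℂ := φ.toRatAlgHom
  have hmin : minpoly ℚ (φ α) = minpoly ℚ α := minpoly.algHom_eq φ' φ'.injective α
  have hdeg : (minpoly ℚ (φ α)).natDegree < finrank ℚ E := by
    rw [hmin, ← IntermediateField.adjoin.finrank hint, hα, IntermediateField.finrank_top']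
    exact hlt
  have halg : IsAlgebraic ℚ (φ α) := (hint.map φ').isAlgebraic
  obtain ⟨τ, h1, h2⟩ := exists_of_degree hE halg hdeg ψ
  refine ⟨τ, fun x => ?_, h2⟩
  have h3 : (τ : ℂ →+* ℂ).comp φ = φ := by
    have h4 : Algebra.adjoin ℚ {α} = ⊤ := by
      rw [← IntermediateField.adjoin_simple_toSubalgebra_of_isAlgebraic
        (Algebra.IsAlgebraic.isAlgebraic α), hα, IntermediateField.top_toSubalgebra]
    have h5 : RingHom.equivRatAlgHom F ℂ ((τ : ℂ →+* ℂ).comp φ) =
        RingHom.equivRatAlgHom F ℂ φ := by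
      apply AlgHom.ext_of_adjoin_eq_top h4
      intro y hy
      rw [Set.mem_singleton_iff] at hy
      rw [hy]
      exact h1
    exact (RingHom.equivRatAlgHom F ℂ).injective h5
  exact RingHom.congr_fun h3 x

/-- Fields of different degrees are pairwise independent if all of them, except perhaps the one of
smallest degree, have an irreducible odd part. -/
theorem pairwiseIndep_of_degrees {I : Type} {K : I → Type} [∀ i, Field (K i)]
    [∀ i, NumberField (K i)] [∀ i, IsCMField (K i)]
    (hne : ∀ i k, i ≠ k → finrank ℚ (K i) ≠ finrank ℚ (K k))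
    (h : ∀ i k, finrank ℚ (K i) < finrank ℚ (K k) → OddIrreducible (K k)) : PairwiseIndep K := by
  intro i k hik φ ψ
  rcases lt_or_gt_of_ne (hne i k hik) with h1 | h1
  · exact exists_sep (h i k h1) h1 φ ψ
  · obtain ⟨σ, h2, h3⟩ := exists_sep (h k i h1) h1 ψ φ
    refine ⟨σ.trans (starRingAut : ℂ ≃+* ℂ), fun x => ?_, fun y => ?_⟩
    · change (starRingEnd ℂ) (σ (φ x)) = φ x
      rw [h3, Complex.conj_conj]
    · change (starRingEnd ℂ) (σ (ψ y)) = _
      rw [h2]

theorem oddIrreducible_of {E : Type} [Field E] [NumberField E] [IsCMField E]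
    (h : IsOddPrimeField E) : OddIrreducible E := by
  obtain ⟨⟨g, hg, hg2, hE⟩, hF⟩ := h
  exact oddIrreducible_of_prime hg hg2 hE hF

end Pool.Agent.Y156.P
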