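import Mathlib
import Pool.Agent.Y156.P.CritDefs
import Pool.Agent.Y156.P.Sep

/-!
# Proofs of the criteria
-/

set_option autoImplicit false
set_option linter.unusedSectionVars false
set_option linter.unusedVariables false

namespace Pool.Agent.Y156.P

open NumberField Module Pool.Agent.H204R3.CM Pool.Agent.H977R3.CM Pool.Agent.Y1.CT
  Pool.Agent.TH170.MF
open scoped Classical

theorem fieldsIndependent_holds : FieldsIndependent := fun I K _ _ _ hne h =>
  pairwiseIndep_of_degrees hne h

theorem numbersIndependent_holds : NumbersIndependent := fun I K _ _ _ ρ hρ0 hρ h =>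
  independent_of_degree hρ0 hρ h

theorem primeFieldsIndependent_holds : PrimeFieldsIndependent := fun I K _ _ _ hne h =>
  pairwiseIndep_of_degrees hne fun i k hik => oddIrreducible_of (h i k hik)

theorem primeNumbersIndependent_holds : PrimeNumbersIndependent := fun I K _ _ _ ρ hρ0 hρ h =>
  independent_of_degree hρ0 hρ fun i => ⟨oddIrreducible_of (h i).1, (h i).2⟩

/-- The odd part of a CM field with a flip is irreducible. -/
theorem oddIrreducible_of_flip {E : Type} [Field E] [NumberField E] [IsCMField E]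
    (h : HasFlip E) : OddIrreducible E := by
  obtain ⟨ψ, τ, hτ, hfix⟩ := h
  intro S hst hodd
  by_cases hS : S = ⊥
  · exact Or.inl hS
  right
  obtain ⟨u, hu, hu0⟩ := (Submodule.ne_bot_iff S).1 hS
  obtain ⟨φ₀, hφ₀⟩ : ∃ φ, u φ ≠ 0 := by
    by_contra hcon
    push Not at hcon
    exact hu0 (funext hcon)
  let e : (E →+* ℂ) → ((E →+* ℂ) → ℚ) := fun χ φ =>
    (if φ = χ then 1 else 0) - (if φ = ComplexEmbedding.conjugate χ then 1 else 0)
  obtain ⟨σ, hσ⟩ := exists_comp_eq E ψ φ₀
  let v : (E →+* ℂ) → ℚ := fun φ => u ((σ : ℂ →+* ℂ).comp φ)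
  have hv : v ∈ S := hst σ u hu
  have hvψ : v ψ ≠ 0 := by
    change u ((σ : ℂ →+* ℂ).comp ψ) ≠ 0
    rw [hσ]
    exact hφ₀
  have hτ' : (τ : ℂ →+* ℂ).comp (ComplexEmbedding.conjugate ψ) = ψ := by
    rw [comp_conj, hτ, conj_conj]
  have he : e ψ ∈ S := by
    have h1 : (fun φ => v ((τ : ℂ →+* ℂ).comp φ)) ∈ S := hst τ v hv
    have h2 : e ψ = (1 / (2 * v ψ)) • (v - fun φ => v ((τ : ℂ →+* ℂ).comp φ)) := by
      funext φ
      rw [Pi.smul_apply, Pi.sub_apply, smul_eq_mul]
      by_cases h3 : φ = ψ
      · subst h3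
        simp only [e]
        rw [if_pos trivial, if_neg (conj_ne φ).symm, hτ, hodd v hv]
        field_simp
        ring
      · by_cases h4 : φ = ComplexEmbedding.conjugate ψ
        · subst h4
          simp only [e]
          rw [if_neg h3, if_pos trivial, hτ', hodd v hv]
          field_simp
          ring
        · simp only [e]
          rw [if_neg h3, if_neg h4, hfix φ h3 h4]
          ring
    rw [h2]
    exact S.smul_mem _ (S.sub_mem hv h1)
  have heall : ∀ χ, e χ ∈ S := by
    intro χ
    obtain ⟨σ', hσ'⟩ := exists_comp_eq E χ ψ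
    have h1 : (fun φ => e ψ ((σ' : ℂ →+* ℂ).comp φ)) ∈ S := hst σ' _ he
    have h2 : (fun φ => e ψ ((σ' : ℂ →+* ℂ).comp φ)) = e χ := by
      funext φ
      have hinj : ∀ φ' : E →+* ℂ, (σ' : ℂ →+* ℂ).comp φ = (σ' : ℂ →+* ℂ).comp φ' ↔ φ = φ' := by
        intro φ'
        constructor
        · intro h
          ext x
          exact σ'.injective (RingHom.congr_fun h x)
        · rintro rfl
          rfl
      simp only [e]
      rw [← hσ', ← comp_conj, if_congr (hinj _) rfl rfl, if_congr (hinj _) rfl rfl]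
    rw [← h2]
    exact h1
  intro w hw
  have h1 : w = (1 / 2 : ℚ) • ∑ χ, w χ • e χ := by
    funext φ
    rw [Pi.smul_apply, Finset.sum_apply, smul_eq_mul]
    simp only [Pi.smul_apply, smul_eq_mul, e, mul_sub, mul_ite, mul_one, mul_zero,
      Finset.sum_sub_distrib]
    rw [Finset.sum_ite_eq, if_pos (Finset.mem_univ _)]
    have h2 : ∑ χ : E →+* ℂ, (if φ = ComplexEmbedding.conjugate χ then w χ else 0) = - w φ := by
      rw [Finset.sum_eq_single (ComplexEmbedding.conjugate φ)]
      · rw [if_pos (conj_conj φ).symm, hw]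
      · intro χ _ hχ
        rw [if_neg]
        rintro rfl
        exact hχ (conj_conj χ).symm
      · intro h
        exact absurd (Finset.mem_univ _) h
    rw [h2]
    ring
  rw [h1]
  exact S.smul_mem _ (S.sum_mem fun χ _ => S.smul_mem _ (heall χ))

theorem irreducibilityCriteria_hold : IrreducibilityCriteria := fun K _ _ _ h =>
  h.elim oddIrreducible_of_flip oddIrreducible_of

end Pool.Agent.Y156.P
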