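import Mathlib
import Pool.Agent.H485R3.Kron
import Pool.Agent.H485R3.Group
import Pool.Agent.TH170.MF.Field

/-!
# Two conjugates of a Weil number with the same absolute values
-/

set_option autoImplicit false
set_option linter.unusedSectionVars false
set_option linter.unusedVariables false

namespace Pool.Agent.Y156.P

open NumberField Module Polynomial Pool.Agent.H485R3 Pool.Agent.TH170.MF Pool.Agent.H204R3.CM
open scoped IntermediateField

section

variable {E : Type} [Field E] [NumberField E] [IsCMField E]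

/-- All complex absolute values of a Weil number. -/
theorem norm_sq_weil {Q : ℕ} {π : E} (hw : π * IsCMField.complexConj E π = (Q : E))
    (χ : E →+* ℂ) : ‖χ π‖ ^ 2 = (Q : ℝ) := by
  have h1 := congrArg χ hw
  rw [map_mul, IsCMField.complexEmbedding_complexConj, Complex.mul_conj, map_natCast] at h1
  rw [← Complex.normSq_eq_norm_sq]
  exact_mod_cast h1

theorem norm_prime_ne (l : ℕ) [Fact l.Prime] {p : ℕ} (hp : p.Prime) (h : l ≠ p) :
    ‖((p : ℕ) : PadicAlgCl l)‖ = 1 := by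
  have h4 : ((p : ℕ) : PadicAlgCl l) = algebraMap ℚ_[l] (PadicAlgCl l) ((p : ℕ) : ℚ_[l]) := by
    simp
  rw [h4, PadicAlgCl.norm_extends, Padic.norm_natCast_eq_one_iff]
  exact (Nat.coprime_primes Fact.out hp).2 h

/-- Two embeddings that agree on a generator are equal. -/
theorem eq_of_gen {L : Type*} [Field L] [CharZero L] {x : E} (hx : ℚ⟮x⟯ = ⊤) {ψ₀ ψ₁ : E →+* L}
    (h : ψ₀ x = ψ₁ x) : ψ₀ = ψ₁ := by
  have h1 : Algebra.adjoin ℚ {x} = ⊤ := by
    rw [← IntermediateField.adjoin_simple_toSubalgebra_of_isAlgebraic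
      (Algebra.IsAlgebraic.isAlgebraic x), hx, IntermediateField.top_toSubalgebra]
  have h2 : RingHom.equivRatAlgHom E L ψ₀ = RingHom.equivRatAlgHom E L ψ₁ := by
    apply AlgHom.ext_of_adjoin_eq_top h1
    intro y hy
    rw [Set.mem_singleton_iff] at hy
    rw [hy]
    exact h
  exact (RingHom.equivRatAlgHom E L).injective h2

/-- The quotient of two conjugates with the same absolute values is a root of unity. -/
theorem pow_eq_of_same {p : ℕ} [hp : Fact p.Prime] (ν : PadicAlgCl p ≃+* ℂ) {a : ℕ} {π : E}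
    (hint : IsIntegral ℤ π) (hw : π * IsCMField.complexConj E π = (p : E) ^ a)
    {L : Type} [Field L] [NumberField L] [IsGalois ℚ L] (j : L →+* ℂ) (ψ₀ ψ₁ : E →+* L)
    (hs : ∀ τ : ℂ ≃+* ℂ, ‖ν.symm (τ (j (ψ₀ π)))‖ = ‖ν.symm (τ (j (ψ₁ π)))‖) :
    ∃ n : ℕ, 0 < n ∧ ψ₀ (π ^ n) = ψ₁ (π ^ n) := by
  have hp0 : (p : L) ≠ 0 := Nat.cast_ne_zero.2 hp.out.ne_zero
  have hprod : ∀ ψ : E →+* L, ψ π * ψ (IsCMField.complexConj E π) = (p : L) ^ a := by
    intro ψ
    rw [← map_mul, hw, map_pow, map_natCast]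
  have hπ0 : ∀ ψ : E →+* L, ψ π ≠ 0 := by
    intro ψ h0
    have h1 := hprod ψ
    rw [h0, zero_mul] at h1
    exact pow_ne_zero a hp0 h1.symm
  set x : L := ψ₁ π / ψ₀ π with hx
  have hx2 : x = ψ₁ π * ψ₀ (IsCMField.complexConj E π) / (p : L) ^ a := by
    rw [hx, ← hprod ψ₀, mul_div_mul_comm]
    have h1 : ψ₀ (IsCMField.complexConj E π) ≠ 0 := by
      intro h0
      have h1 := hprod ψ₀
      rw [h0, mul_zero] at h1
      exact pow_ne_zero a hp0 h1.symm
    rw [div_self h1, mul_one]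
  have hint' : IsIntegral ℤ (IsCMField.complexConj E π) :=
    hint.map (IsCMField.complexConj E)
  have hxint : IsIntegral ℤ x := by
    refine isIntegral_of_norm_le x fun l hl e => ?_
    by_cases hlp : l = p
    · subst hlp
      obtain ⟨τ, hτ⟩ := exists_comp_eq L j
        (((ν : PadicAlgCl l ≃+* ℂ) : PadicAlgCl l →+* ℂ).comp (e : L →+* PadicAlgCl l))
      have h1 : ∀ y : L, ν.symm (τ (j y)) = e y := by
        intro y
        have h2 := RingHom.congr_fun hτ y
        have h3 : τ (j y) = ν (e y) := h2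
        rw [h3, RingEquiv.symm_apply_apply]
      have h2 := hs τ
      rw [h1, h1] at h2
      rw [hx, map_div₀, norm_div, h2, div_self]
      rw [norm_ne_zero_iff]
      exact (_root_.map_ne_zero e).2 (hπ0 ψ₁)
    · have h1 : ‖e ((p : L) ^ a)‖ = 1 := by
        rw [map_pow, map_natCast, norm_pow, norm_prime_ne l hp.out hlp, one_pow]
      rw [hx2, map_div₀, norm_div, h1, div_one, map_mul, norm_mul]
      refine mul_le_one₀ ?_ (norm_nonneg _) ?_
      · apply norm_le_one_of_isIntegral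
        exact map_isIntegral_int e (map_isIntegral_int ψ₁ hint)
      · apply norm_le_one_of_isIntegral
        exact map_isIntegral_int e (map_isIntegral_int ψ₀ hint')
  obtain ⟨n, hn, hxn⟩ := pow_eq_one_of_norm x hxint fun φ => by
    have hQ : π * IsCMField.complexConj E π = ((p ^ a : ℕ) : E) := by
      rw [hw]
      push_cast
      rfl
    have h1 : ∀ ψ : E →+* L, ‖φ (ψ π)‖ ^ 2 = ((p ^ a : ℕ) : ℝ) := fun ψ =>
      norm_sq_weil hQ ((φ : L →+* ℂ).comp ψ)
    have h2 : ‖φ (ψ₁ π)‖ = ‖φ (ψ₀ π)‖ := by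
      rw [← sq_eq_sq₀ (norm_nonneg _) (norm_nonneg _), h1, h1]
    rw [hx, map_div₀, norm_div, h2, div_self]
    rw [norm_ne_zero_iff]
    exact (_root_.map_ne_zero φ).2 (hπ0 ψ₀)
  refine ⟨n, hn, ?_⟩
  rw [hx, div_pow, div_eq_one_iff_eq (pow_ne_zero n (hπ0 ψ₀))] at hxn
  rw [map_pow, map_pow, hxn]

/-- Two different conjugates of a Weil number all of whose powers generate the field do not have the
same absolute values. -/
theorem false_of_same {p : ℕ} [hp : Fact p.Prime] (ν : PadicAlgCl p ≃+* ℂ) {a : ℕ} {π : E}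
    (hint : IsIntegral ℤ π) (hw : π * IsCMField.complexConj E π = (p : E) ^ a)
    (hgen : ∀ n : ℕ, 0 < n → ℚ⟮π ^ n⟯ = ⊤) {φ₀ φ₁ : E →+* ℂ} (hne : φ₀ ≠ φ₁)
    (hs : ∀ τ : ℂ ≃+* ℂ, ‖ν.symm (τ (φ₀ π))‖ = ‖ν.symm (τ (φ₁ π))‖) : False := by
  obtain ⟨L, _, _, j, hj⟩ := exists_galois (fun _ : Unit => E)
  obtain ⟨ψ₀, rfl⟩ := hj () φ₀
  obtain ⟨ψ₁, rfl⟩ := hj () φ₁
  obtain ⟨n, hn, h⟩ := pow_eq_of_same ν hint hw j ψ₀ ψ₁ hs
  apply hne
  rw [eq_of_gen (hgen n hn) h]

end

end Pool.Agent.Y156.P
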