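import Mathlib
import Pool.Agent.TH170.FW.Main
import Pool.Agent.TH170.GS.Rel
import Pool.Agent.Y156.P.Defs
import Pool.Agent.Y156.P.Field
import Pool.Agent.Y156.P.Kro
import Pool.Agent.Y156.P.IrrDefs

/-!
# Weil numbers of prime dimension have nondegenerate slope types
-/

set_option autoImplicit false
set_option linter.unusedSectionVars false
set_option linter.unusedVariables false

namespace Pool.Agent.Y156.P

open NumberField Module Polynomial Pool.Agent.TH170.MF Pool.Agent.H204R3.CM Pool.Agent.TH170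
  Pool.Agent.TH170.CM Pool.Agent.TH170.FW
open scoped IntermediateField

/-- The logarithms of the norms of algebraic numbers are rational. -/
theorem exists_rat_logb {p : ℕ} [hp : Fact p.Prime] {y : PadicAlgCl p} (hy : y ≠ 0) :
    ∃ q : ℚ, Real.logb p ‖y‖ = q := by
  have hp1 : (1 : ℝ) < p := by exact_mod_cast hp.out.one_lt
  have h1 : ‖y‖ = ‖(minpoly ℚ_[p] y).coeff 0‖ ^ (1 / (minpoly ℚ_[p] y).natDegree : ℝ) := by
    rw [← PadicAlgCl.spectralNorm_eq]
    exact spectralNorm.spectralNorm_eq_norm_coeff_zero_rpow ℚ_[p] (PadicAlgCl p) y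
  have h0 : (minpoly ℚ_[p] y).coeff 0 ≠ 0 := by
    apply minpoly.coeff_zero_ne_zero _ hy
    exact (Algebra.IsAlgebraic.isAlgebraic y).isIntegral
  have h2 : ‖(minpoly ℚ_[p] y).coeff 0‖ =
      (p : ℝ) ^ ((-((minpoly ℚ_[p] y).coeff 0).valuation : ℤ) : ℝ) := by
    rw [Padic.norm_eq_zpow_neg_valuation h0, Real.rpow_intCast]
  refine ⟨(-((minpoly ℚ_[p] y).coeff 0).valuation : ℤ) * (1 / (minpoly ℚ_[p] y).natDegree : ℚ), ?_⟩
  rw [h1, h2, ← Real.rpow_mul (by positivity), Real.logb_rpow (by positivity) hp1.ne']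
  push_cast
  rfl

theorem logb_zpow' (b x : ℝ) (m : ℤ) : Real.logb b (x ^ m) = m * Real.logb b x := by
  rw [Real.logb, Real.log_zpow, mul_div_assoc, ← Real.logb]

variable {p : ℕ} [hp : Fact p.Prime] (ν : PadicAlgCl p ≃+* ℂ) {a : ℕ} {E : Type} [Field E]
  [NumberField E] [IsCMField E]

/-- The slopes of a Weil number are those of a type, which is nondegenerate if the slopes are not
orthogonal to a minimal space. -/
theorem exists_type_gen {π : E} (hw : π * IsCMField.complexConj E π = (p : E) ^ a)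
    (H : ∀ q : (E →+* ℂ) → ℚ, (∀ φ, Real.logb p ‖ν.symm (φ π)‖ = q φ) →
      (∀ φ, q φ + q (ComplexEmbedding.conjugate φ) = -a) → ∀ S ∈ minimalSpaces E,
        (∀ s ∈ S, ∑ φ, (-(2 * q φ) - a) * s φ = 0) → False) :
    ∃ (M : (E →+* ℂ) → ℤ) (Φ : Set (E →+* ℂ)) (κ : ℝ),
      (∀ φ, M (ComplexEmbedding.conjugate φ) = M φ) ∧ IsCMType Φ ∧ Φ ∉ degTypes M ∧ κ ≠ 0 ∧
        GS.HasSlopes ν M Φ a κ π := by
  classical
  have hp1 : (1 : ℝ) < p := by exact_mod_cast hp.out.one_lt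
  have hpE : (p : E) ≠ 0 := Nat.cast_ne_zero.2 hp.out.ne_zero
  have hπ0 : π ≠ 0 := by
    intro h0
    rw [h0, zero_mul] at hw
    exact pow_ne_zero a hpE hw.symm
  have hν0 : ∀ φ : E →+* ℂ, ν.symm (φ π) ≠ 0 := fun φ =>
    (_root_.map_ne_zero ν.symm).2 ((_root_.map_ne_zero φ).2 hπ0)
  -- the slopes
  have hrat : ∀ φ : E →+* ℂ, ∃ q : ℚ, Real.logb p ‖ν.symm (φ π)‖ = q := fun φ =>
    exists_rat_logb (hν0 φ)
  choose q hq using hrat
  have hlp : Real.logb p ‖ν.symm (p : ℂ)‖ = -1 := by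
    rw [GS.norm_symm_p, Real.logb_inv, Real.logb_self_eq_one hp1]
  have hqc : ∀ φ : E →+* ℂ, q φ + q (ComplexEmbedding.conjugate φ) = -a := by
    intro φ
    have h1 := congrArg φ hw
    rw [map_mul, IsCMField.complexEmbedding_complexConj, map_pow, map_natCast] at h1
    have h2 := congrArg (fun x => Real.logb p ‖ν.symm x‖) h1
    simp only [map_mul, map_pow, norm_mul, norm_pow] at h2
    rw [Real.logb_mul (norm_ne_zero_iff.2 (hν0 φ)) ?_, Real.logb_pow, hlp, hq] at h2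
    · have h3 : Real.logb p ‖ν.symm ((starRingEnd ℂ) (φ π))‖ =
          q (ComplexEmbedding.conjugate φ) := by
        rw [← hq, ComplexEmbedding.conjugate_coe_eq]
      rw [h3] at h2
      have h4 : ((q φ + q (ComplexEmbedding.conjugate φ) : ℚ) : ℝ) = ((-(a : ℚ) : ℚ) : ℝ) := by
        push_cast
        rw [h2]
        ring
      exact_mod_cast h4
    · rw [norm_ne_zero_iff, ← ComplexEmbedding.conjugate_coe_eq]
      exact hν0 _
  obtain ⟨D, z, hD, hz⟩ := GS.exists_den fun φ : E →+* ℂ => -(2 * q φ) - a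
  have hDq : (D : ℚ) ≠ 0 := Nat.cast_ne_zero.2 hD
  have hDr : (D : ℝ) ≠ 0 := Nat.cast_ne_zero.2 hD
  have hzc : ∀ φ, z (ComplexEmbedding.conjugate φ) = - z φ := by
    intro φ
    have h1 : ((z (ComplexEmbedding.conjugate φ) : ℤ) : ℚ) = ((- z φ : ℤ) : ℚ) := by
      rw [hz, Int.cast_neg, hz]
      linear_combination -2 * (D : ℚ) * hqc φ
    exact_mod_cast h1
  obtain ⟨T, hT⟩ := exists_transversal (X := E →+* ℂ)
    (c := ComplexEmbedding.conjugate (K := E)) conj_conj conj_ne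
  let Φ : Set (E →+* ℂ) := {φ | 0 < z φ ∨ (z φ = 0 ∧ φ ∈ T)}
  have hΦ : IsCMType Φ := by
    intro φ
    change (0 < z φ ∨ (z φ = 0 ∧ φ ∈ T)) ↔ ¬ (0 < z (ComplexEmbedding.conjugate φ) ∨
      (z (ComplexEmbedding.conjugate φ) = 0 ∧ ComplexEmbedding.conjugate φ ∈ T))
    rw [hzc]
    rcases lt_trichotomy (z φ) 0 with h | h | h
    · constructor
      · rintro (h1 | ⟨h1, -⟩) <;> omega
      · intro h1
        exact absurd (Or.inl (by omega)) h1
    · constructor
      · rintro (h1 | ⟨-, h1⟩)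
        · omega
        · rintro (h2 | ⟨-, h2⟩)
          · omega
          · exact (hT φ).1 h1 h2
      · intro h1
        refine Or.inr ⟨h, (hT φ).2 fun h2 => h1 (Or.inr ⟨by omega, h2⟩)⟩
    · constructor
      · intro _
        rintro (h1 | ⟨h1, -⟩) <;> omega
      · intro _
        exact Or.inl h
  have hsgn : ∀ φ, sgn Φ φ * |z φ| = z φ := by
    intro φ
    unfold sgn
    by_cases h : φ ∈ Φ
    · rw [if_pos h, one_mul]
      rcases h with h | ⟨h, -⟩
      · exact abs_of_pos h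
      · rw [h, abs_zero]
    · rw [if_neg h]
      have h1 : ¬ 0 < z φ := fun h2 => h (Or.inl h2)
      rw [abs_of_nonpos (not_lt.1 h1)]
      ring
  refine ⟨fun φ => |z φ|, Φ, (1 / D : ℝ), fun φ => by
    change |z _| = |z φ|
    rw [hzc, abs_neg], hΦ, ?_,
    one_div_ne_zero hDr, ?_⟩
  · rintro ⟨-, S, hS, horth⟩
    refine H q hq hqc S hS fun s hs => ?_
    have h1 : (D : ℚ) * ∑ φ, (-(2 * q φ) - a) * s φ = 0 := by
      rw [← horth s hs, Finset.mul_sum]
      refine Finset.sum_congr rfl fun φ _ => ?_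
      rw [hsgn, hz]
      ring
    exact (mul_eq_zero.1 h1).resolve_left hDq
  · intro φ
    have h3 : ((z φ : ℤ) : ℝ) = (D : ℝ) * (-(2 * q φ) - a) := by
      have h4 := hz φ
      have h5 : (((z φ : ℤ) : ℚ) : ℝ) = (((D : ℚ) * (-(2 * q φ) - a) : ℚ) : ℝ) := by rw [h4]
      push_cast at h5
      exact h5
    have h2 := hsgn φ
    unfold sgn at h2
    by_cases h : φ ∈ Φ
    · rw [if_pos h] at h2 ⊢
      rw [one_mul] at h2
      change _ = _ * ((|z φ| : ℤ) : ℝ)
      rw [h2, hq, h3]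
      field_simp
    · rw [if_neg h] at h2 ⊢
      change _ = _ * (-((|z φ| : ℤ) : ℝ))
      have h4 : (-((|z φ| : ℤ) : ℝ)) = z φ := by
        rw [← Int.cast_neg]
        congr 1
        linarith
      rw [h4, hq, h3]
      field_simp

/-- **Weil numbers of prime dimension have nondegenerate slope types.** -/
theorem exists_type (ha : 0 < a) {π : E} (hπ : IsPrimeWeil p a π) :
    ∃ (M : (E →+* ℂ) → ℤ) (Φ : Set (E →+* ℂ)) (κ : ℝ),
      (∀ φ, M (ComplexEmbedding.conjugate φ) = M φ) ∧ IsCMType Φ ∧ Φ ∉ degTypes M ∧ κ ≠ 0 ∧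
        GS.HasSlopes ν M Φ a κ π := by
  classical
  obtain ⟨⟨hint, hw, hgen⟩, hprime⟩ := hπ
  refine exists_type_gen ν hw fun q hq hqc S hS horth => ?_
  have hp1 : (1 : ℝ) < p := by exact_mod_cast hp.out.one_lt
  have hpE : (p : E) ≠ 0 := Nat.cast_ne_zero.2 hp.out.ne_zero
  have hπ0 : π ≠ 0 := by
    intro h0
    rw [h0, zero_mul] at hw
    exact pow_ne_zero a hpE hw.symm
  have hν0 : ∀ φ : E →+* ℂ, ν.symm (φ π) ≠ 0 := fun φ =>
    (_root_.map_ne_zero ν.symm).2 ((_root_.map_ne_zero φ).2 hπ0)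
  let w : (E →+* ℂ) → ℚ := fun φ => -(2 * q φ) - a
  have hwc : ∀ φ, w (ComplexEmbedding.conjugate φ) = - w φ := by
    intro φ
    simp only [w]
    linear_combination -2 * hqc φ
  obtain ⟨g, hg, hexc⟩ : ∃ g : ℕ, finrank ℚ E = 2 * g ∧ (g = 1 ∨ g = 2 ∨ (g.Prime ∧
      ((∀ F : IntermediateField ℚ E, finrank ℚ F ≠ 2) ∨
        ∃ (D : ℚ) (z : (E →+* ℂ) → ℤ), D ≠ 0 ∧ (∀ φ, D * w φ = z φ) ∧
          ∀ φ, Odd (z φ)))) := by
    rcases hprime with h | h | ⟨g, hgp, hg, h⟩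
    · exact ⟨1, h, Or.inl rfl⟩
    · exact ⟨2, h, Or.inr (Or.inl rfl)⟩
    · refine ⟨g, hg, Or.inr (Or.inr ⟨hgp, ?_⟩)⟩
      rcases h with ⟨d, hd, hm⟩ | h
      · right
        have hm' : ∀ φ : E →+* ℂ, ∃ m : ℤ, (d : ℚ) * q φ = - (m * a) := by
          intro φ
          obtain ⟨m, hm⟩ := hm (((ν.symm : ℂ ≃+* PadicAlgCl p) : ℂ →+* PadicAlgCl p).comp φ)
          refine ⟨m, ?_⟩
          have h1 := congrArg (Real.logb p) hm
          have h2 : ‖(p : PadicAlgCl p)‖ = (p : ℝ)⁻¹ := by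
            rw [← GS.norm_symm_p (ν := ν), map_natCast]
          rw [norm_pow, h2, Real.logb_pow, logb_zpow', Real.logb_pow, Real.logb_inv,
            Real.logb_self_eq_one hp1] at h1
          have h4 : Real.logb p ‖(((ν.symm : ℂ ≃+* PadicAlgCl p) :
              ℂ →+* PadicAlgCl p).comp φ) π‖ = q φ := hq φ
          rw [h4] at h1
          have h5 : (((d : ℚ) * q φ : ℚ) : ℝ) = ((-((m : ℚ) * a) : ℚ) : ℝ) := by
            push_cast
            rw [h1]
            ring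
          exact_mod_cast h5
        choose m hm' using hm'
        have haq : (a : ℚ) ≠ 0 := Nat.cast_ne_zero.2 ha.ne'
        refine ⟨d / a, fun φ => 2 * m φ - d, ?_, fun φ => ?_, fun φ => ?_⟩
        · have : (d : ℚ) ≠ 0 := Nat.cast_ne_zero.2 hd.pos.ne'
          positivity
        · simp only [w]
          push_cast
          have h1 : (d : ℚ) / a * (-(2 * q φ) - a) = (-2 * (d * q φ)) / a - d := by
            field_simp
          rw [h1, hm']
          field_simp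
        · have h1 : Odd ((d : ℤ)) := by exact_mod_cast hd
          exact Even.sub_odd (even_two_mul (m φ)) h1
      · exact Or.inl h
  obtain ⟨φ₀, φ₁, hne, hsame⟩ := exists_same hg hS w hwc horth hexc
  refine false_of_same ν hint hw hgen hne fun τ => ?_
  have h1 := hsame τ
  simp only [w] at h1
  have h3 : q ((τ : ℂ →+* ℂ).comp φ₀) = q ((τ : ℂ →+* ℂ).comp φ₁) := by linarith
  have h4 : Real.logb p ‖ν.symm (τ (φ₀ π))‖ = Real.logb p ‖ν.symm (τ (φ₁ π))‖ := by
    have h5 := hq ((τ : ℂ →+* ℂ).comp φ₀)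
    have h6 := hq ((τ : ℂ →+* ℂ).comp φ₁)
    rw [h3] at h5
    exact h5.trans h6.symm
  exact Real.logb_injOn_pos hp1 (norm_pos_iff.2 (hν0 ((τ : ℂ →+* ℂ).comp φ₀)))
    (norm_pos_iff.2 (hν0 ((τ : ℂ →+* ℂ).comp φ₁))) h4

/-- **Weil numbers with other slopes in fields with irreducible odd part have nondegenerate slope
types.** -/
theorem exists_type_irr {π : E} (hπ : IsIrreducibleWeil p a π) :
    ∃ (M : (E →+* ℂ) → ℤ) (Φ : Set (E →+* ℂ)) (κ : ℝ),
      (∀ φ, M (ComplexEmbedding.conjugate φ) = M φ) ∧ IsCMType Φ ∧ Φ ∉ degTypes M ∧ κ ≠ 0 ∧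
        GS.HasSlopes ν M Φ a κ π := by
  classical
  obtain ⟨hirr, hw, hgen, e, he⟩ := hπ
  refine exists_type_gen ν hw fun q hq hqc S hS horth => ?_
  have hp1 : (1 : ℝ) < p := by exact_mod_cast hp.out.one_lt
  have hp0 : (0 : ℝ) < p := by positivity
  let w : (E →+* ℂ) → ℚ := fun φ => -(2 * q φ) - a
  have hwc : ∀ φ, w (ComplexEmbedding.conjugate φ) = - w φ := by
    intro φ
    simp only [w]
    linear_combination -2 * hqc φ
  have hall := (hirr S hS.2.1 hS.2.2.1).resolve_left hS.1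
  have h1 : ∑ φ, w φ * w φ = 0 := horth w (hall w hwc)
  have h2 : ∀ φ, w φ = 0 := by
    intro φ
    have h3 := (Finset.sum_eq_zero_iff_of_nonneg fun φ _ => mul_self_nonneg (w φ)).1 h1 φ
      (Finset.mem_univ φ)
    exact mul_self_eq_zero.1 h3
  apply he
  have h3 := h2 (((ν : PadicAlgCl p ≃+* ℂ) : PadicAlgCl p →+* ℂ).comp e)
  have h4 := hq (((ν : PadicAlgCl p ≃+* ℂ) : PadicAlgCl p →+* ℂ).comp e)
  have h5 : ν.symm ((((ν : PadicAlgCl p ≃+* ℂ) : PadicAlgCl p →+* ℂ).comp e) π) = e π :=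
    ν.symm_apply_apply (e π)
  rw [h5] at h4
  have hpE : (p : E) ≠ 0 := Nat.cast_ne_zero.2 hp.out.ne_zero
  have hπ0 : π ≠ 0 := by
    intro h0
    rw [h0, zero_mul] at hw
    exact pow_ne_zero a hpE hw.symm
  have he0 : 0 < ‖e π‖ := norm_pos_iff.2 ((_root_.map_ne_zero e).2 hπ0)
  have h6 : ‖(p : PadicAlgCl p)‖ = (p : ℝ)⁻¹ := by
    rw [← GS.norm_symm_p (ν := ν), map_natCast]
  rw [norm_pow, h6]
  refine Real.logb_injOn_pos hp1 (pow_pos he0 2) (pow_pos (inv_pos.2 hp0) a) ?_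
  rw [Real.logb_pow, Real.logb_pow, Real.logb_inv, Real.logb_self_eq_one hp1, h4]
  have h7 : ((2 * q (((ν : PadicAlgCl p ≃+* ℂ) : PadicAlgCl p →+* ℂ).comp e) : ℚ) : ℝ) =
      ((-(a : ℚ) : ℚ) : ℝ) := by
    simp only [w] at h3
    congr 1
    linarith
  push_cast at h7 ⊢
  rw [h7]
  ring

end Pool.Agent.Y156.P
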