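import Mathlib
import Pool.Agent.Y1.CT.Rel
import Pool.Agent.Y1.CT.Kun
import Pool.Agent.Y156.P.Nondeg
import Pool.Agent.Y156.P.Sep

/-!
# There are no relations between Weil numbers of prime dimension and independent numbers
-/

set_option autoImplicit false
set_option linter.unusedSectionVars false
set_option linter.unusedVariables false

namespace Pool.Agent.Y156.P

open NumberField Module Polynomial Cardinal Pool.Agent.TH170.MF Pool.Agent.H204R3.CM
  Pool.Agent.H977R3.CM Pool.Agent.TH170 Pool.Agent.TH170.CM Pool.Agent.TH170.FW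
  Pool.Agent.Y1.CT
open scoped IntermediateField

theorem mk_padic_le (p : ℕ) [hp : Fact p.Prime] : #ℚ_[p] ≤ 𝔠 := by
  have h1 : ∀ x : ℚ_[p], ∃ u : ℕ → ℚ, Filter.Tendsto (fun n => ((u n : ℚ) : ℚ_[p]))
      Filter.atTop (nhds x) := by
    intro x
    have hd : DenseRange (fun q : ℚ => (q : ℚ_[p])) := Padic.denseRange_ratCast p
    have hx : x ∈ closure (Set.range (fun q : ℚ => (q : ℚ_[p]))) := hd x
    obtain ⟨v, hv, hlim⟩ := mem_closure_iff_seq_limit.mp hx
    choose u hu using hv
    refine ⟨u, ?_⟩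
    simp only [hu]
    exact hlim
  choose u hu using h1
  have hinj : Function.Injective u := by
    intro x y h
    exact tendsto_nhds_unique (hu x) (h ▸ hu y)
  refine (mk_le_of_injective hinj).trans ?_
  simp

/-- The algebraic closure of the field of the `p`-adic numbers is isomorphic to the field of the
complex numbers. -/
theorem exists_iso (p : ℕ) [hp : Fact p.Prime] : Nonempty (PadicAlgCl p ≃+* ℂ) := by
  have h1 : 𝔠 ≤ #(PadicAlgCl p) :=
    (continuum_le_cardinal_of_nontriviallyNormedField ℚ_[p]).trans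
      (mk_le_of_injective (algebraMap ℚ_[p] (PadicAlgCl p)).injective)
  have h3 : #(PadicAlgCl p) ≤ 𝔠 := by
    have h := Algebra.IsAlgebraic.cardinalMk_le_max ℚ_[p] (PadicAlgCl p)
    exact h.trans (max_le (mk_padic_le p) aleph0_le_continuum)
  have h2 : #(PadicAlgCl p) = 𝔠 := le_antisymm h3 h1
  apply IsAlgClosed.ringEquiv_of_equiv_of_charZero
  · rw [h2]
    exact aleph0_lt_continuum
  · rw [← Cardinal.eq, h2, mk_complex]

/-- The number `1` is independent of all fields. -/
theorem independent_one {I : Type} (K : I → Type) [∀ i, Field (K i)] : Independent K 1 :=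
  ⟨one_ne_zero, fun i ψ => ⟨(starRingAut : ℂ ≃+* ℂ), 1, one_pos, by simp, fun x => rfl⟩⟩

theorem gen_one {p a : ℕ} {K : Type} [Field K] [NumberField K] [IsCMField K] {π : K}
    (h : IsSimpleWeil p a π) : ℚ⟮π⟯ = ⊤ := by
  have h1 := h.gen 1 one_pos
  rwa [pow_one] at h1

/-- **There are no relations between Weil numbers of prime dimension and independent numbers.** -/
theorem noRel {p : ℕ} [hp : Fact p.Prime] {a : ℕ} (ha : 0 < a) {I : Type} [Fintype I]
    {K : I → Type} [∀ i, Field (K i)] [∀ i, NumberField (K i)] [∀ i, IsCMField (K i)]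
    (hind : PairwiseIndep K) {π : ∀ i, K i} (hπ : ∀ i, IsPrimeWeil p a (π i)) {f : I → ℤ[X]}
    (hf : ∀ i, IsPolyOf (π i) (f i)) : NoRel f (p ^ a) (Independent K) := by
  obtain ⟨ν⟩ := exists_iso p
  choose M Φ κ hM hΦ hnd hκ hsl using fun i => exists_type ν ha (hπ i)
  refine ⟨fun i => (hf i).1, independent_one K, fun s hs ρ hρ => ?_⟩
  exact exactPair_types hind hM hΦ hnd (π := π) (ν := ν) (a := a)
    ⟨fun i => gen_one (hπ i).simple, fun i => (hπ i).simple.weil, fun i => ⟨κ i, hκ i, hsl i⟩⟩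
    f hf s hs ρ hρ

/-- **There are no relations between Weil numbers in fields with irreducible odd part and independent
numbers.** -/
theorem noRel_irr {p : ℕ} [hp : Fact p.Prime] {a : ℕ} {I : Type} [Fintype I]
    {K : I → Type} [∀ i, Field (K i)] [∀ i, NumberField (K i)] [∀ i, IsCMField (K i)]
    (hind : PairwiseIndep K) {π : ∀ i, K i} (hπ : ∀ i, IsIrreducibleWeil p a (π i)) {f : I → ℤ[X]}
    (hf : ∀ i, IsPolyOf (π i) (f i)) : NoRel f (p ^ a) (Independent K) := by
  obtain ⟨ν⟩ := exists_iso p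
  choose M Φ κ hM hΦ hnd hκ hsl using fun i => exists_type_irr ν (hπ i)
  refine ⟨fun i => (hf i).1, independent_one K, fun s hs ρ hρ => ?_⟩
  exact exactPair_types hind hM hΦ hnd (π := π) (ν := ν) (a := a)
    ⟨fun i => (hπ i).gen, fun i => (hπ i).weil, fun i => ⟨κ i, hκ i, hsl i⟩⟩
    f hf s hs ρ hρ

end Pool.Agent.Y156.P
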