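import Mathlib
import Pool.Agent.TH170.GS.Defs
import Pool.Agent.W495.FM.HomDefs
import Pool.Agent.Y156.P.CritDefs

/-!
# Abelian varieties over finite fields with given Weil numbers: definitions
-/

set_option autoImplicit false

namespace Pool.Agent.Y156.P

open NumberField Pool.Agent.W495.TA Pool.Agent.W495.FM Pool.Agent.TH170

/-- Each simple factor of the abelian variety `Y` over a finite field is supersingular, or some
positive power of its Frobenius endomorphism is the image of a positive power of one of the numbers
`π i` under an embedding of the field `K i` in the CM field of the factor. In other words `Y` is, over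
an algebraic closure, isogenous to the product of a supersingular abelian variety and of powers of the
abelian varieties with the Weil numbers `π i`. -/
def OfNumbers {p : ℕ} [Fact p.Prime] {ν : PadicAlgCl p ≃+* ℂ} {I : Type} {K : I → Type}
    [∀ i, Field (K i)] (π : ∀ i, K i) (Y : RedAV p ν) : Prop :=
  ∀ k : Y.X.I, GS.IsSupersingular p Y.a (Y.π k) ∨
    ∃ (i : I) (θ : K i →+* (Y.X.factor k).E) (m s : ℕ), 0 < m ∧ 0 < s ∧
      θ (π i ^ m) = Y.π k ^ s

/-- The groups of motivic and of `ℓ`-adic homology of `X` are those of an abelian variety `Y` with the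
Weil numbers `π i` and supersingular factors (`OfNumbers`). -/
def IsAbelianOfNumbers {p : ℕ} [Fact p.Prime] (ν : PadicAlgCl p ≃+* ℂ) {I : Type} {K : I → Type}
    [∀ i, Field (K i)] (π : ∀ i, K i) {Ω V : Type} [Field Ω] [CharZero Ω] (T : Homology Ω V)
    (X : V) : Prop :=
  ∃ (Y : RedAV p ν) (C : Cycles Ω Y) (D : Motivic C) (g : ℕ), OfNumbers π Y ∧ IsChow C ∧
    IsMotivic D ∧ IsAbelian T X D g

/-- `π` is a Weil number of prime dimension (`IsPrimeWeil`), or a Weil number which is not
supersingular in a CM field with irreducible odd part (`IsIrreducibleWeil`). -/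
def IsGoodWeil (p a : ℕ) [Fact p.Prime] {K : Type} [Field K] [NumberField K] [IsCMField K]
    (π : K) : Prop :=
  IsPrimeWeil p a π ∨ IsIrreducibleWeil p a π

end Pool.Agent.Y156.P
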