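import Mathlib
import Pool.Agent.TH170.GS.TB
import Pool.Agent.TH117.BL.Main
import Pool.Agent.Y156.P.AbsDefs
import Pool.Agent.Y156.P.Main

/-!
# Abelian varieties over finite fields with given Weil numbers
-/

set_option autoImplicit false
set_option linter.unusedSectionVars false
set_option linter.unusedVariables false

namespace Pool.Agent.Y156.P

open NumberField Module Polynomial Pool.Agent.TH170.MF Pool.Agent.H204R3.CM
  Pool.Agent.H977R3.CM Pool.Agent.TH170 Pool.Agent.TH170.CM Pool.Agent.TH170.FW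
  Pool.Agent.W495.TA Pool.Agent.W495.FM Pool.Agent.TH117 Pool.Agent.TH117.GN
open scoped IntermediateField

variable {p : ℕ} [hp : Fact p.Prime] {ν : PadicAlgCl p ≃+* ℂ} {I : Type} {K : I → Type}
  [∀ i, Field (K i)] [∀ i, NumberField (K i)] [∀ i, IsCMField (K i)]

theorem ofTypes_of {a : ℕ} (ha : 0 < a) {M : ∀ i, (K i →+* ℂ) → ℤ}
    {Φ : ∀ i, Set (K i →+* ℂ)} {κ : I → ℝ} (hκ : ∀ i, κ i ≠ 0) {π : ∀ i, K i}
    (hw : ∀ i, π i * IsCMField.complexConj (K i) (π i) = (p : K i) ^ a)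
    (hsl : ∀ i, GS.HasSlopes ν (M i) (Φ i) a (κ i) (π i)) {Y : RedAV p ν} (hY : OfNumbers π Y) :
    GS.OfTypes K M Φ Y := by
  have ha' : (a : ℝ) ≠ 0 := Nat.cast_ne_zero.2 ha.ne'
  have hYa : (Y.a : ℝ) ≠ 0 := Nat.cast_ne_zero.2 Y.pos.ne'
  refine ⟨fun i => κ i * Y.a / a, fun i => div_ne_zero (mul_ne_zero (hκ i) hYa) ha', fun k => ?_⟩
  rcases hY k with h | ⟨i, θ, m, s, hm, hs, hθ⟩
  · exact Or.inl h
  refine Or.inr ⟨i, θ, π i ^ m, s, hs, hθ, ?_⟩
  have hp1 : (1 : ℝ) < p := by exact_mod_cast hp.out.one_lt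
  have hexp : a * m = Y.a * s := by
    obtain ⟨χ⟩ : Nonempty ((Y.X.factor k).E →+* ℂ) := inferInstance
    have h1 : ‖χ (Y.π k)‖ ^ 2 = (p : ℝ) ^ Y.a := (Y.frob k).weil χ
    have hQ : π i * IsCMField.complexConj (K i) (π i) = ((p ^ a : ℕ) : K i) := by
      rw [hw]
      push_cast
      rfl
    have h2 := norm_sq_weil hQ (χ.comp θ)
    have h3 : χ (Y.π k) ^ s = (χ.comp θ) (π i) ^ m := by
      rw [← map_pow, ← hθ, ← map_pow (χ.comp θ)]
      rfl
    have h4 : (‖χ (Y.π k)‖ ^ 2) ^ s = (‖(χ.comp θ) (π i)‖ ^ 2) ^ m := by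
      rw [← pow_mul, ← pow_mul, mul_comm 2 s, mul_comm 2 m, pow_mul, pow_mul,
        ← norm_pow (χ (Y.π k)), ← norm_pow ((χ.comp θ) (π i)), h3]
    rw [h1, h2] at h4
    push_cast at h4
    rw [← pow_mul, ← pow_mul] at h4
    exact (Nat.pow_right_injective hp.out.two_le (by exact_mod_cast h4)).symm
  intro φ
  have h1 := hsl i φ
  have h2 : 2 * (- Real.logb p ‖ν.symm (φ (π i ^ m))‖) - ((s * Y.a : ℕ) : ℝ) =
      m * (2 * (- Real.logb p ‖ν.symm (φ (π i))‖) - a) := by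
    rw [map_pow, map_pow, norm_pow, Real.logb_pow]
    have h3 : ((s * Y.a : ℕ) : ℝ) = ((a * m : ℕ) : ℝ) := by rw [hexp, mul_comm]
    rw [h3]
    push_cast
    ring
  have h3 : (s : ℝ) * (κ i * Y.a / a) = m * κ i := by
    have h4 : (a : ℝ) * m = Y.a * s := by exact_mod_cast hexp
    field_simp
    linear_combination -(κ i) * h4
  rw [h3]
  push_cast at h2
  rw [h2, h1]
  ring

variable [Fintype I]

/-- **Abelian varieties with good Weil numbers have elementary relations.** -/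
theorem elementary {a : ℕ} (ha : 0 < a) (hind : PairwiseIndep K) {π : ∀ i, K i}
    (hπ : ∀ i, IsGoodWeil p a (π i)) {Y : RedAV p ν} (hY : OfNumbers π Y) :
    ∃ Z : RedAV p ν, BL.HasElementaryRelations Z ∧ BL.IsPowersTimesSupersingular Z Y := by
  have hex : ∀ i, ∃ (M : (K i →+* ℂ) → ℤ) (Φ : Set (K i →+* ℂ)) (κ : ℝ),
      (∀ φ, M (ComplexEmbedding.conjugate φ) = M φ) ∧ IsCMType Φ ∧ Φ ∉ degTypes M ∧ κ ≠ 0 ∧
        GS.HasSlopes ν M Φ a κ (π i) := by
    intro i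
    rcases hπ i with h | h
    · exact exists_type ν ha h
    · exact exists_type_irr ν h
  have hw : ∀ i, π i * IsCMField.complexConj (K i) (π i) = (p : K i) ^ a := by
    intro i
    rcases hπ i with h | h
    · exact h.simple.weil
    · exact h.weil
  choose M Φ κ hM hΦ hnd hκ hsl using hex
  exact ⟨Y, GS.elementary_of_types hind hM hΦ hnd (ofTypes_of ha hκ hw hsl hY), fun k => Or.inr
    ⟨k, RingHom.id _, 1, 1, one_pos, one_pos, rfl, rfl⟩⟩

theorem tb_numbers {a : ℕ} (ha : 0 < a) (hind : PairwiseIndep K) {π : ∀ i, K i}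
    (hπ : ∀ i, IsGoodWeil p a (π i)) {Ω V : Type} [Field Ω] [IsAlgClosed Ω] [CharZero Ω]
    {T : Homology Ω V} (hT : IsHomology T) {X : V}
    (hX : Generated T (IsAbelianOfNumbers ν π T) X) : TB T X := by
  refine tb_generated hT (fun X hX => ?_) hX
  obtain ⟨Y, C, D, g, h1, hC, hD, hX⟩ := hX
  obtain ⟨Z, h2, h3⟩ := elementary ha hind hπ h1
  exact tb_abelian hT hC (tateHolds_elem h2 h3 hC) hD hX

theorem tate_numbers {a : ℕ} (ha : 0 < a) (hind : PairwiseIndep K) {π : ∀ i, K i}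
    (hπ : ∀ i, IsGoodWeil p a (π i)) (Ω : Type) [Field Ω] [CharZero Ω] [IsAlgClosed Ω]
    (Y : RedAV p ν) (hY : OfNumbers π Y) (s m : ℕ) (f : (TM Ω Y) [⋀^Fin (2 * m)]→ₗ[Ω] Ω)
    (hs : 0 < s) (hf : IsTateClass Ω Y s m f) : Alg Ω Y (Fin (2 * m)) f := by
  obtain ⟨Z, h1, h2⟩ := elementary ha hind hπ hY
  exact TH117.BL.elementary Z h1 Ω Y h2 s m hs f hf

end Pool.Agent.Y156.P
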