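import Mathlib
import Pool.Agent.Y156.P.AbsDefs
import Pool.Agent.Y156.P.Main

/-!
# No relations between good Weil numbers
-/

set_option autoImplicit false
set_option linter.unusedSectionVars false
set_option linter.unusedVariables false

namespace Pool.Agent.Y156.P

open NumberField Module Polynomial Pool.Agent.H204R3.CM Pool.Agent.H977R3.CM Pool.Agent.Y1.CT
  Pool.Agent.TH170 Pool.Agent.TH170.MF Pool.Agent.TH170.CM Pool.Agent.TH170.FW
open scoped IntermediateField

/-- **There are no relations between good Weil numbers and independent numbers.** -/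
theorem noRel_good {p : ℕ} [hp : Fact p.Prime] {a : ℕ} (ha : 0 < a) {I : Type} [Fintype I]
    {K : I → Type} [∀ i, Field (K i)] [∀ i, NumberField (K i)] [∀ i, IsCMField (K i)]
    (hind : PairwiseIndep K) {π : ∀ i, K i} (hπ : ∀ i, IsGoodWeil p a (π i)) {f : I → ℤ[X]}
    (hf : ∀ i, IsPolyOf (π i) (f i)) : NoRel f (p ^ a) (Independent K) := by
  obtain ⟨ν⟩ := exists_iso p
  have hex : ∀ i, ∃ (M : (K i →+* ℂ) → ℤ) (Φ : Set (K i →+* ℂ)) (κ : ℝ),
      (∀ φ, M (ComplexEmbedding.conjugate φ) = M φ) ∧ IsCMType Φ ∧ Φ ∉ degTypes M ∧ κ ≠ 0 ∧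
        GS.HasSlopes ν M Φ a κ (π i) := by
    intro i
    rcases hπ i with h | h
    · exact exists_type ν ha h
    · exact exists_type_irr ν h
  have hw : ∀ i, π i * IsCMField.complexConj (K i) (π i) = (p : K i) ^ a := by
    intro i
    rcases hπ i with h | h
    · exact h.simple.weil
    · exact h.weil
  have hg : ∀ i, ℚ⟮π i⟯ = ⊤ := by
    intro i
    rcases hπ i with h | h
    · exact gen_one h.simple
    · exact h.gen
  choose M Φ κ hM hΦ hnd hκ hsl using hex
  refine ⟨fun i => (hf i).1, independent_one K, fun s hs ρ hρ => ?_⟩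
  exact exactPair_types hind hM hΦ hnd (π := π) (ν := ν) (a := a)
    ⟨hg, hw, fun i => ⟨κ i, hκ i, hsl i⟩⟩ f hf s hs ρ hρ

end Pool.Agent.Y156.P
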