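import Pool.Agent.TH117.GN.Defs

/-!
# Unramified cohomology: definitions
-/

set_option autoImplicit false

namespace Pool.Agent.Y156.P

open Pool.Agent.W495.FM

variable {Ω V : Type} [Field Ω]

/-- The groups `U X = H^3_nr(X, ℚ/ℤ(2))` are the unramified cohomology groups of the smooth projective
varieties `X` over finite fields (those with the property `S X`): they are finite if for `X` the
conjectures of Tate and Beilinson hold: the regulators are isomorphisms onto the Frobenius invariants
and the eigenvalue one is semisimple (Colliot-Thélène, Kahn; only codimension two is needed). -/
def IsUnramified (T : Homology Ω V) (S : V → Prop) (U : V → Type) : Prop :=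
  ∀ X, S X → TB T X → Finite (U X)

end Pool.Agent.Y156.P
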